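import Pool.Agent.L5helper88.CP.Transfer

/-!
# Results of nested systems of linear equations, and their values after a substitution
-/

set_option autoImplicit false

open Finset MvPolynomial

namespace Pool.Agent.L5helper88.NS

open Pool.Agent.L5helper88.CP Pool.Agent.L5helper60.LA

section defs

variable {σ : Type} {F : Type} [Field F] [Algebra ℂ F] (x : σ → F)

/-- results of nested nonsingular systems of linear equations, the last system first: the
coefficients are linear, the right sides quadratic in the earlier results -/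
inductive Sys : List F → List ℕ → Prop
  | nil : Sys [] []
  | solve (l : List F) (s : List ℕ) (n : ℕ) (B : Matrix (Fin n) (Fin n) F) (β y : Fin n → F) :
      Sys l s → (∀ i j, B i j ∈ Av x {b | b ∈ l}) → (∀ i, β i ∈ Q x {b | b ∈ l}) →
      B.det ≠ 0 → (∀ i, ∑ j, B i j * y j = β i) → Sys (List.ofFn y ++ l) (n :: s)

variable {x}

theorem av_change {x' : σ → F} {τ : Type} {z : τ → F} (h : ∀ j, x' j ∈ Av z ∅) (B : Set F) :
    Av x' B ≤ Av z B := by
  refine Submodule.span_le.2 ?_
  rintro a (ha | ⟨j, rfl⟩ | ha)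
  · exact av_mem ha
  · exact Av_mono (Set.empty_subset B) (h j)
  · rw [Set.mem_singleton_iff.1 ha]
    exact av_one

theorem q_change {x' : σ → F} {τ : Type} {z : τ → F} (h : ∀ j, x' j ∈ Av z ∅) (B : Set F) :
    Q x' B ≤ Q z B := by
  refine Submodule.span_mono ?_
  rintro a ⟨u, v, hu, hv, rfl⟩
  exact ⟨u, v, av_change h B hu, av_change h B hv, rfl⟩

theorem Sys.change {x' : σ → F} {τ : Type} {z : τ → F} (h : ∀ j, x' j ∈ Av z ∅) {l : List F}
    {s : List ℕ} (hl : Sys x' l s) : Sys z l s := by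
  induction hl with
  | nil => exact Sys.nil
  | solve l s n B β y _ hB hβ hdet hy ih =>
    exact Sys.solve l s n B β y ih (fun i j => av_change h _ (hB i j))
      (fun i => q_change h _ (hβ i)) hdet hy

end defs

section val

variable {τ σ : Type} {φ : τ → MvPolynomial σ ℂ}

theorem Val.sum {α : Type} {s : Finset α} {z : α → RF ℂ τ} {w : α → RF ℂ σ}
    (h : ∀ a ∈ s, Val φ (z a) (w a)) : Val φ (∑ a ∈ s, z a) (∑ a ∈ s, w a) := by
  classical
  induction s using Finset.induction_on with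
  | empty => simpa using Val.zero
  | insert a s ha ih =>
    rw [sum_insert ha, sum_insert ha]
    exact (h a (mem_insert_self _ _)).add (ih fun i hi => h i (mem_insert_of_mem hi))

theorem Val.one : Val φ 1 1 := by
  have h1 := Val.const (φ := φ) 1
  rwa [map_one, map_one] at h1

theorem Val.prod {α : Type} {s : Finset α} {z : α → RF ℂ τ} {w : α → RF ℂ σ}
    (h : ∀ a ∈ s, Val φ (z a) (w a)) : Val φ (∏ a ∈ s, z a) (∏ a ∈ s, w a) := by
  classical
  induction s using Finset.induction_on with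
  | empty => simpa using Val.one
  | insert a s ha ih =>
    rw [prod_insert ha, prod_insert ha]
    exact (h a (mem_insert_self _ _)).mul (ih fun i hi => h i (mem_insert_of_mem hi))

theorem Val.det {n : ℕ} {B : Matrix (Fin n) (Fin n) (RF ℂ τ)}
    {B' : Matrix (Fin n) (Fin n) (RF ℂ σ)} (h : ∀ i j, Val φ (B i j) (B' i j)) :
    Val φ B.det B'.det := by
  rw [Matrix.det_apply', Matrix.det_apply']
  refine Val.sum fun g _ => Val.mul ?_ (Val.prod fun i _ => h _ _)
  have h1 := Val.const (φ := φ) (((Equiv.Perm.sign g : ℤ) : ℂ))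
  rwa [map_intCast, map_intCast] at h1

theorem Val.ne_zero {z : RF ℂ τ} {w : RF ℂ σ} (h : Val φ z w) {n d : MvPolynomial τ ℂ}
    (hz : z * algebraMap (MvPolynomial τ ℂ) (RF ℂ τ) d = algebraMap (MvPolynomial τ ℂ) (RF ℂ τ) n)
    (hn : aeval φ n ≠ 0) : w ≠ 0 := by
  rintro rfl
  obtain ⟨n0, d0, hd0, e1, e2⟩ := h
  have e3 := congrArg (aeval φ) (val_cross e1 hz)
  rw [map_mul, map_mul] at e3
  rw [zero_mul] at e2
  have e4 : aeval φ n0 = 0 := by
    by_contra h
    exact algebraMap_ne h e2.symm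
  rw [e4, zero_mul] at e3
  exact mul_ne_zero hn hd0 e3.symm

theorem forall₂_ofFn {A B : Type} {R : A → B → Prop} {n : ℕ} {f : Fin n → A} {g : Fin n → B}
    (h : ∀ i, R (f i) (g i)) : List.Forall₂ R (List.ofFn f) (List.ofFn g) := by
  rw [List.forall₂_iff_get]
  refine ⟨by simp, fun i h1 h2 => ?_⟩
  simp only [List.get_eq_getElem, List.getElem_ofFn]
  exact h _

/-- **Substitution** in nested systems. -/
theorem transfer_sys {l : List (RF ℂ τ)} {s : List ℕ} (hl : Sys (xv ℂ) l s) :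
    ∃ Δ : MvPolynomial τ ℂ, Δ ≠ 0 ∧ ∀ (φ : τ → MvPolynomial σ ℂ), aeval φ Δ ≠ 0 →
      ∃ l' : List (RF ℂ σ), Sys (xs φ) l' s ∧ List.Forall₂ (Val φ) l l' := by
  induction hl with
  | nil => exact ⟨1, one_ne_zero, fun φ _ => ⟨[], Sys.nil, List.Forall₂.nil⟩⟩
  | solve l s n B β y _ hB hβ hdet hy ih =>
    obtain ⟨Δ, hΔ, H⟩ := ih
    choose ny dy hdy hy1 using fun i => exists_frac (y i)
    obtain ⟨nB, dB, hdB, hB1⟩ := exists_frac B.det
    have hnB : nB ≠ 0 := by
      rintro rfl
      rw [map_zero] at hB1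
      exact (mul_ne_zero hdet (algebraMap_ne hdB)) hB1
    refine ⟨Δ * (∏ i, dy i) * nB, mul_ne_zero (mul_ne_zero hΔ (prod_ne_zero_iff.2 fun i _ =>
      hdy i)) hnB, fun φ hφ => ?_⟩
    rw [map_mul, map_mul, map_prod] at hφ
    have h1 : aeval φ Δ ≠ 0 := left_ne_zero_of_mul (left_ne_zero_of_mul hφ)
    have h2 : ∀ i, aeval φ (dy i) ≠ 0 := fun i =>
      prod_ne_zero_iff.1 (right_ne_zero_of_mul (left_ne_zero_of_mul hφ)) i (mem_univ i)
    have h3 : aeval φ nB ≠ 0 := right_ne_zero_of_mul hφ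
    obtain ⟨l', hl', hll⟩ := H φ h1
    choose B' hB'1 hB'2 using fun i j => av_val hll (hB i j)
    choose β' hβ'1 hβ'2 using fun i => q_val hll (hβ i)
    set y' : Fin n → RF ℂ σ := fun i => algebraMap (MvPolynomial σ ℂ) (RF ℂ σ) (aeval φ (ny i)) /
      algebraMap (MvPolynomial σ ℂ) (RF ℂ σ) (aeval φ (dy i)) with hy'
    have hyy : ∀ i, Val φ (y i) (y' i) := fun i => ⟨ny i, dy i, h2 i, hy1 i, by
      rw [hy', div_mul_cancel₀ _ (algebraMap_ne (h2 i))]⟩
    refine ⟨List.ofFn y' ++ l', Sys.solve l' s n (Matrix.of B') β' y' hl' hB'1 hβ'1 ?_ ?_,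
      List.rel_append (forall₂_ofFn hyy) hll⟩
    · exact Val.ne_zero (Val.det (B' := Matrix.of B') hB'2) hB1 h3
    · intro i
      have h4 : Val φ (∑ j, B i j * y j) (∑ j, Matrix.of B' i j * y' j) :=
        Val.sum fun j _ => (hB'2 i j).mul (hyy j)
      rw [hy i] at h4
      exact h4.unique (hβ'2 i)

end val

end Pool.Agent.L5helper88.NS
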