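import Pool.Agent.L5helper88.NS.Bdd
import Pool.Agent.L5helper88.CP.LogBound

/-!
# Approximations of the permanent by polynomials with few critical points
-/

set_option autoImplicit false

open Finset MvPolynomial Filter

namespace Pool.Agent.L5helper88.NS

open L5helper59.DC L5lead.NC L5helper96.NC L5helper96.Cub L5helper59.NC L5helper11.CL
  Pool.Agent.L5helper60.LA Pool.Agent.L5helper88.Model Pool.Agent.L5helper88.CP

section size

variable {τ σ : Type} [Fintype τ] [DecidableEq τ] [Fintype σ] [DecidableEq σ]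

/-- a limit of polynomials with few critical points after generic affine substitutions -/
theorem size_bdd (P : MvPolynomial τ ℂ) (Pk : ℕ → MvPolynomial τ ℂ) (D : ℕ)
    (hdeg : ∀ k, (Pk k).totalDegree ≤ D) (hlim : CT Pk P) (B : ℝ)
    (hB : ∀ k, Bdd σ B (Pk k))
    (a : τ → ℂ) (b : τ → σ → ℂ) (c : σ → ℂ) (S : Finset (σ → ℂ))
    (hS : Crit (aeval (fun j => aff (a j) (b j)) P) c S) :
    (S.card : ℝ) ≤ B := by
  choose Δ hΔ H using hB
  choose a' ha'1 ha'2 using fun k : ℕ => exists_near (Δ k) (hΔ k) a (1 / ((k : ℝ) + 1))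
    (by positivity)
  have haff : ∀ k, aeval (fun j => aff (a' k j) (b j)) (Δ k) ≠ 0 := by
    intro k h
    apply ha'2 k
    have h1 := congrArg (eval (0 : σ → ℂ)) h
    rw [map_zero] at h1
    have h2 : ∀ Q : MvPolynomial τ ℂ, eval (0 : σ → ℂ) (aeval (fun j => aff (a' k j) (b j)) Q) =
        eval (a' k) Q := by
      intro Q
      induction Q using MvPolynomial.induction_on with
      | C c => simp
      | add f g hf hg => rw [map_add, map_add, hf, hg, map_add]
      | mul_X f i hf =>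
        rw [map_mul, map_mul, hf, map_mul]
        simp [aff]
    rw [h2] at h1
    exact h1
  have hconv : ∀ j, Tendsto (fun k => a' k j) atTop (nhds (a j)) := by
    intro j
    rw [tendsto_iff_norm_sub_tendsto_zero]
    refine squeeze_zero (fun _ => norm_nonneg _) (fun k => ha'1 k j) ?_
    exact tendsto_one_div_add_atTop_nhds_zero_nat
  obtain ⟨k, S', hS'1, hS'2⟩ := crit_persist (aeval (fun j => aff (a j) (b j)) P)
    (fun k => aeval (fun j => aff (a' k j) (b j)) (Pk k)) D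
    (fun k => (L5helper67.DC.totalDegree_aeval_le _ (fun j => totalDegree_aff _ _) _).trans
      (hdeg k))
    (CT.aeval _ _ (fun j => (CT.C (hconv j)).add (CT.const _)) D P Pk hdeg hlim) c S hS
  rw [← hS'1]
  exact H k (a' k) b (haff k) c S' hS'2

end size

theorem bdd_of_perm {σ : Type} [Fintype σ] [DecidableEq σ] (T : MvPolynomial σ ℂ) (c : σ → ℂ)
    (S : Finset (σ → ℂ)) (hS : Crit T c S) (Gk : ℕ → MvPolynomial σ ℂ) (Δ : ℕ)
    (hdeg : ∀ k, (Gk k).totalDegree ≤ Δ) (hlim : CT Gk T) (m₀ m : ℕ) (hm : m₀ ≤ m)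
    (hperm : ∀ k, ∃ (M₀ : Matrix (Fin m₀) (Fin m₀) (MvPolynomial σ ℂ)) (K : ℂ), K ≠ 0 ∧
      (∀ x y, (M₀ x y).totalDegree ≤ 1) ∧ M₀.permanent = C K * Gk k)
    (Pk : ℕ → MvPolynomial (Fin m × Fin m) ℂ) (D : ℕ) (hD : ∀ k, (Pk k).totalDegree ≤ D)
    (hP : CT Pk (permPoly m)) (B : ℝ) (hs : ∀ k, Bdd σ B (Pk k)) :
    (S.card : ℝ) ≤ B := by
  obtain ⟨k, S₁, h11, h12⟩ := crit_persist T Gk Δ hdeg hlim c S hS
  obtain ⟨M₀, K, hK, hM₀, hp⟩ := hperm k
  obtain ⟨a, b, hab⟩ := exists_subst' hm M₀ hM₀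
  have h2 := crit_smul (Gk k) K hK c S₁ h12
  rw [← hp, ← hab] at h2
  have := size_bdd (permPoly m) Pk D hD hP B hs a b _ S₁ h2
  rwa [h11] at this

theorem assembly_bdd {L V : Type} [Fintype L] [Fintype V] [DecidableEq L] [DecidableEq V]
    (q : ℕ) [NeZero q]
    (hV : Fintype.card V = 2 * q) (m₀ m : ℕ) (hm : m₀ ≤ m)
    (Gk : ℕ → MvPolynomial (Option (L × V)) ℂ) (Δ : ℕ)
    (hdeg : ∀ k, (Gk k).totalDegree ≤ Δ)
    (hlim : ∀ d, Filter.Tendsto (fun k => coeff d (Gk k)) Filter.atTop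
      (nhds (coeff d ((X none + ∑ l : L, ∑ I ∈ powersetCard (q + 1) (univ : Finset V),
        ∏ i ∈ I, X (some (l, i)) : MvPolynomial (Option (L × V)) ℂ)))))
    (hperm : ∀ k, ∃ (M₀ : Matrix (Fin m₀) (Fin m₀) (MvPolynomial (Option (L × V)) ℂ)) (K : ℂ),
      K ≠ 0 ∧ (∀ x y, (M₀ x y).totalDegree ≤ 1) ∧ M₀.permanent = C K * Gk k)
    (Pk : ℕ → MvPolynomial (Fin m × Fin m) ℂ) (D : ℕ) (hD : ∀ k, (Pk k).totalDegree ≤ D)
    (hP : CT Pk (permPoly m)) (B : ℝ) (hs : ∀ k, Bdd (L × V) B (Pk k)) :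
    ((((q.factorial) ^ 2) ^ (Fintype.card L) : ℕ) : ℝ) ≤ B := by
  obtain ⟨c, S, hScard, hS⟩ := crit_tg (L := L) (V := V) q hV
  -- drop the additional variable
  let θ : Option (L × V) → MvPolynomial (L × V) ℂ := fun o => o.elim 0 X
  have hθ : ∀ o, (θ o).totalDegree ≤ 1 := by
    intro o
    cases o with
    | none => simp [θ]
    | some i => simp [θ]
  have hT : aeval θ ((X none + ∑ l : L, ∑ I ∈ powersetCard (q + 1) (univ : Finset V),
        ∏ i ∈ I, X (some (l, i)) : MvPolynomial (Option (L × V)) ℂ)) = tg L V (q + 1) := by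
    rw [map_add, aeval_X, map_sum]
    change 0 + _ = _
    rw [zero_add]
    unfold tg
    refine sum_congr rfl fun l _ => ?_
    rw [map_sum]
    refine sum_congr rfl fun I _ => ?_
    rw [map_prod]
    refine prod_congr rfl fun i _ => ?_
    rw [aeval_X]
    rfl
  have key := bdd_of_perm (tg L V (q + 1)) c S hS (fun k => aeval θ (Gk k)) Δ
    (fun k => (L5helper67.DC.totalDegree_aeval_le _ hθ _).trans (hdeg k))
    (by
      rw [← hT]
      exact CT.aeval (fun _ => θ) θ (fun _ => CT.const _) Δ _ Gk hdeg hlim) m₀ m hm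
    (fun k => by
      obtain ⟨M₀, K, hK, hM₀, hp⟩ := hperm k
      refine ⟨M₀.map (aeval θ : MvPolynomial (Option (L × V)) ℂ →ₐ[ℂ] _), K, hK,
        fun x y => ?_, ?_⟩
      · rw [Matrix.map_apply]
        exact (L5helper67.DC.totalDegree_aeval_le _ hθ _).trans (hM₀ x y)
      · have h1 : (M₀.map (aeval θ : MvPolynomial (Option (L × V)) ℂ →ₐ[ℂ]
            MvPolynomial (L × V) ℂ)).permanent = aeval θ M₀.permanent := by
          unfold Matrix.permanent
          rw [map_sum]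
          refine sum_congr rfl fun s _ => ?_
          rw [map_prod]
          rfl
        rw [h1, hp, map_mul, aeval_C]
        rfl) Pk D hD hP B hs
  rw [hScard] at key
  exact key

/-- **The inequality for approximations of the permanent** by polynomials with few critical
points. -/
theorem program_bdd (hC3 : PermSizeStmt size3) (m L : ℕ) (hL : 364 * 2 ^ (L + 1) ≤ m)
    (Pk : ℕ → MvPolynomial (Fin m × Fin m) ℂ) (D : ℕ) (hD : ∀ k, (Pk k).totalDegree ≤ D)
    (hP : CT Pk (permPoly m)) (B : ℝ)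
    (hs : ∀ k, Bdd (Fin (2 ^ (L + 1)) × Fin (2 ^ (L + 1))) B (Pk k)) :
    ((((2 ^ L).factorial) ^ 2) ^ (2 * 2 ^ L) : ℝ) ≤ B := by
  have hN : 2 ^ (L + 1) = 2 * 2 ^ L := by rw [pow_succ]; ring
  have hq : 1 ≤ 2 ^ L := Nat.one_le_two_pow
  have : NeZero (2 ^ L) := ⟨by omega⟩
  have hsize : size3 (L + 1) (2 ^ L + 1) ≤ m :=
    (size3_le (L + 1) (2 ^ L) hN (by omega)).trans hL
  have key := assembly_bdd (L := Fin (2 ^ (L + 1))) (V := Fin (2 ^ (L + 1)))
    (2 ^ L) (by rw [Fintype.card_fin, hN]) (size3 (L + 1) (2 ^ L + 1)) m hsize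
    (fun k => F2t (2 ^ (L + 1)) (2 ^ L + 1) (1 / ((k : ℂ) + 1))) (2 ^ L + 1 + 1)
    (fun k => L5helper79.NC.F2t_degree _ _ _)
    (by
      intro d
      have h1 := L5helper79.NC.F2t_tendsto (2 ^ (L + 1)) (2 ^ L + 1) d
      rw [L5helper79.NC.F2t_zero (2 ^ (L + 1)) (2 ^ L + 1)] at h1
      exact h1)
    (by
      intro k
      obtain ⟨A, K, hK, hA, hp⟩ := hC3 (2 ^ L + 1) (L + 1) _ (by omega) (1 / ((k : ℝ) + 1))
        (by positivity) rfl
      refine ⟨A, K, hK, hA, ?_⟩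
      rw [hp]
      push_cast
      rfl)
    Pk D hD hP B hs
  rw [Fintype.card_fin, hN] at key
  exact_mod_cast key

end Pool.Agent.L5helper88.NS
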