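import Pool.Agent.L5helper88.CP.Size

/-!
# Polynomials with few critical points after generic affine substitutions
-/

set_option autoImplicit false

open Finset MvPolynomial

namespace Pool.Agent.L5helper88.NS

open Pool.Agent.L5helper88.CP

/-- a bound for the number of critical points after generic affine substitutions -/
def Bdd {τ : Type} [Fintype τ] [DecidableEq τ] (σ : Type) [Fintype σ] [DecidableEq σ] (B : ℝ)
    (P : MvPolynomial τ ℂ) : Prop :=
  ∃ Δ : MvPolynomial τ ℂ, Δ ≠ 0 ∧ ∀ (a : τ → ℂ) (b : τ → σ → ℂ),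
    aeval (fun j => aff (a j) (b j)) Δ ≠ 0 → ∀ (c : σ → ℂ) (S : Finset (σ → ℂ)),
      Crit (aeval (fun j => aff (a j) (b j)) P) c S → (S.card : ℝ) ≤ B

end Pool.Agent.L5helper88.NS
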