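import Pool.Agent.L5helper18.DC.Bezout

/-!
# More on polynomials of bounded weighted degree
-/

set_option autoImplicit false

open Finset MvPolynomial

namespace Pool.Agent.L5helper88.NS

open Pool.Agent.L5helper18.DC

section wd

variable {ι κ : Type} [Fintype ι] [Fintype κ] {K : Type*} [Field K] {w : ι → ℕ}

theorem wd_zero (D : ℕ) : WD w D (0 : MvPolynomial ι K) := by
  intro m hm
  simp at hm

theorem wd_add {D : ℕ} {f g : MvPolynomial ι K} (hf : WD w D f) (hg : WD w D g) :
    WD w D (f + g) := by
  classical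
  intro m hm
  rcases Finset.mem_union.1 (support_add hm) with h | h
  · exact hf m h
  · exact hg m h

theorem wd_neg {D : ℕ} {f : MvPolynomial ι K} (hf : WD w D f) : WD w D (-f) := by
  intro m hm
  rw [support_neg] at hm
  exact hf m hm

theorem wd_sub {D : ℕ} {f g : MvPolynomial ι K} (hf : WD w D f) (hg : WD w D g) :
    WD w D (f - g) := by
  rw [sub_eq_add_neg]
  exact wd_add hf (wd_neg hg)

theorem wd_sum {α : Type} {s : Finset α} {D : ℕ} {f : α → MvPolynomial ι K}
    (hf : ∀ j ∈ s, WD w D (f j)) : WD w D (∑ j ∈ s, f j) := by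
  classical
  induction s using Finset.induction_on with
  | empty => simpa using wd_zero D
  | insert j s hj ih =>
    rw [sum_insert hj]
    exact wd_add (hf j (mem_insert_self _ _)) (ih fun i hi => hf i (mem_insert_of_mem hi))

theorem wd_monomial {D : ℕ} {m : ι →₀ ℕ} (hm : ∑ i, m i * w i ≤ D) (c : K) :
    WD w D (monomial m c) := by
  intro m' hm'
  have h := support_monomial_subset hm'
  rw [Finset.mem_singleton] at h
  rw [h]
  exact hm

theorem wd_C (D : ℕ) (c : K) : WD w D (C c : MvPolynomial ι K) := by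
  rw [← monomial_zero']
  exact wd_monomial (by simp) c

theorem wd_X {D : ℕ} [DecidableEq ι] (i : ι) (h : w i ≤ D) : WD w D (X i : MvPolynomial ι K) := by
  refine wd_monomial ?_ 1
  have h1 : ∀ j, (Finsupp.single i 1 : ι →₀ ℕ) j * w j = if i = j then w j else 0 := by
    intro j
    rw [Finsupp.single_apply]
    split_ifs <;> simp
  simp only [h1, sum_ite_eq, mem_univ, if_true]
  exact h

/-- substitution -/
theorem wd_aeval {D : ℕ} {w' : κ → ℕ} (θ : ι → MvPolynomial κ K)
    (hθ : ∀ i, WD w' (w i) (θ i)) {f : MvPolynomial ι K} (hf : WD w D f) :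
    WD w' D (aeval θ f) := by
  classical
  rw [aeval_def, eval₂_eq']
  refine wd_sum fun m hm => ?_
  have h1 : WD w' (0 + ∑ i, m i * w i) (algebraMap K (MvPolynomial κ K) (coeff m f) *
      ∏ i, θ i ^ m i) := by
    refine WD.mul (wd_C 0 _) ?_
    exact WD.prod fun i _ => (hθ i).pow (m i)
  refine h1.mono ?_
  rw [zero_add]
  exact hf m hm

theorem wd_rename [DecidableEq κ] {D : ℕ} {w' : κ → ℕ} (e : ι → κ) (he : ∀ i, w' (e i) = w i)
    {f : MvPolynomial ι K} (hf : WD w D f) : WD w' D (rename e f) := by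
  rw [show rename e f = aeval (fun i => (X (e i) : MvPolynomial κ K)) f from by
    rw [rename_eq_aeval]; rfl]
  exact wd_aeval _ (fun i => wd_X _ (he i).le) hf

theorem wd_pderiv [DecidableEq ι] {D : ℕ} {f : MvPolynomial ι K} (hf : WD w D f) (i : ι) :
    WD w (D - w i) (pderiv i f) := by
  have h1 : pderiv i f = ∑ m ∈ f.support, pderiv i (monomial m (coeff m f)) := by
    conv_lhs => rw [f.as_sum, map_sum]
  rw [h1]
  refine wd_sum fun m hm => ?_
  rw [pderiv_monomial]
  by_cases h0 : m i = 0
  · rw [h0, Nat.cast_zero, mul_zero, monomial_zero]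
    exact wd_zero _
  · refine wd_monomial ?_ _
    have h2 := hf m hm
    have h3 : ∑ j, m j * w j = ∑ j, (m - Finsupp.single i 1 : ι →₀ ℕ) j * w j + w i := by
      have h4 : ∀ j, m j * w j =
          (m - Finsupp.single i 1 : ι →₀ ℕ) j * w j + if i = j then w j else 0 := by
        intro j
        rw [Finsupp.tsub_apply, Finsupp.single_apply]
        split_ifs with h
        · subst h
          obtain ⟨k, hk⟩ := Nat.exists_eq_succ_of_ne_zero h0
          rw [hk]
          simp [Nat.succ_mul]
        · simp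
      rw [sum_congr rfl fun j _ => h4 j, sum_add_distrib]
      simp
    omega

/-- a variable of large weight does not occur -/
theorem pderiv_eq_zero_of_wd [DecidableEq ι] {D : ℕ} {f : MvPolynomial ι K} (hf : WD w D f) (i : ι)
    (h : D < w i) : pderiv i f = 0 := by
  apply pderiv_eq_zero_of_notMem_vars
  intro hi
  obtain ⟨m, hm, hmi⟩ := (mem_vars_iff_mem_support i).1 hi
  have h1 := hf m hm
  have h2 : m i * w i ≤ ∑ j, m j * w j :=
    single_le_sum (f := fun j => m j * w j) (fun _ _ => Nat.zero_le _) (mem_univ i)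
  have h3 : 1 ≤ m i := Nat.one_le_iff_ne_zero.2 (Finsupp.mem_support_iff.1 hmi)
  nlinarith

end wd

end Pool.Agent.L5helper88.NS
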