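import Mathlib

/-!
# Weights
-/

set_option autoImplicit false

namespace Pool.Agent.L5helper88.NS

/-- the product of the parameters -/
def W : List (ℕ × ℕ) → ℕ
  | [] => 1
  | a :: t => a.2 * W t

/-- a product over the unknowns of all systems -/
noncomputable def PR (g : ℕ → ℕ → ℝ) : List (ℕ × ℕ) → ℝ
  | [] => 1
  | a :: t => g (W (a :: t)) (W t) ^ a.1 * PR g t

theorem W_pos {t : List (ℕ × ℕ)} (ht : ∀ a ∈ t, 1 ≤ a.2) : 1 ≤ W t := by
  induction t with
  | nil => exact le_rfl
  | cons a t ih =>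
    exact Nat.one_le_iff_ne_zero.2 (mul_ne_zero
      (Nat.one_le_iff_ne_zero.1 (ht a List.mem_cons_self))
      (Nat.one_le_iff_ne_zero.1 (ih fun b hb => ht b (List.mem_cons_of_mem _ hb))))

end Pool.Agent.L5helper88.NS
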