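import Pool.Agent.L5helper88.NS.Sys
import Pool.Agent.L5helper88.NS.WD
import Pool.Agent.L5helper88.NS.Weights

/-!
# Equations of small weighted degree for the results of nested systems
-/

set_option autoImplicit false

open Finset MvPolynomial

namespace Pool.Agent.L5helper88.NS

open Pool.Agent.L5helper88.CP Pool.Agent.L5helper60.LA Pool.Agent.L5helper18.DC

section enc

variable {σ : Type} [Fintype σ] [DecidableEq σ] {F : Type} [Field F] [Algebra ℂ F]

/-- nonsingular polynomial equations for the members of a list -/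
structure Enc (x : σ → F) (l : List F) (t : List (ℕ × ℕ)) where
  κ : Type
  fin : Fintype κ
  dec : DecidableEq κ
  wy : κ → ℕ
  wp : κ → ℕ
  y : κ → F
  E : κ → MvPolynomial (σ ⊕ κ) ℂ
  hw : ∀ k, 1 ≤ wp k ∧ wp k ≤ wy k ∧ wy k ≤ W t
  hE : ∀ j, WD (Sum.elim (fun _ => 1) wy) (wy j + wp j) (E j)
  hz : ∀ j, aeval (Sum.elim x y) (E j) = 0
  hJ : (Matrix.of fun j k => aeval (Sum.elim x y) (pderiv (Sum.inr k) (E j))).det ≠ 0
  hl : ∀ u ∈ l, ∃ k, y k = u
  hg : ∀ g : ℕ → ℕ → ℝ, ∏ k, g (wy k) (wp k) = PR g t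

attribute [instance] Enc.fin Enc.dec

theorem aeval_aff {ι : Type} [Fintype ι] [DecidableEq ι] (q : ι → F) (a : ℂ) (b : ι → ℂ) :
    aeval q (aff a b) = algebraMap ℂ F a + ∑ i, algebraMap ℂ F (b i) * q i := by
  unfold aff
  rw [map_add, aeval_C, map_sum]
  congr 1
  exact sum_congr rfl fun i _ => by rw [map_mul, aeval_C, aeval_X]

theorem wd_aff {ι : Type} [Fintype ι] [DecidableEq ι] {w : ι → ℕ} {D : ℕ} (h : ∀ i, w i ≤ D)
    (a : ℂ) (b : ι → ℂ) : WD w D (aff a b) := by
  unfold aff
  refine wd_add (wd_C _ _) (wd_sum fun i _ => ?_)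
  have h1 := (wd_C (w := w) 0 (b i)).mul (wd_X i (h i))
  rwa [zero_add] at h1

/-- the available elements are values of affine forms -/
theorem Enc.av {x : σ → F} {l : List F} {t : List (ℕ × ℕ)} (e : Enc x l t) {u : F}
    (hu : u ∈ Av x {b | b ∈ l}) :
    ∃ (a : ℂ) (b : σ ⊕ e.κ → ℂ), aeval (Sum.elim x e.y) (aff a b) = u := by
  classical
  simp only [aeval_aff]
  unfold Av at hu
  induction hu using Submodule.span_induction with
  | mem u hu =>
    rcases hu with hu | ⟨i, rfl⟩ | hu
    · obtain ⟨k, rfl⟩ := e.hl u hu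
      refine ⟨0, Pi.single (Sum.inr k) 1, ?_⟩
      rw [map_zero, zero_add, sum_eq_single (Sum.inr k)]
      · simp
      · intro b _ hb
        rw [Pi.single_eq_of_ne hb, map_zero, zero_mul]
      · exact fun h => absurd (mem_univ _) h
    · refine ⟨0, Pi.single (Sum.inl i) 1, ?_⟩
      rw [map_zero, zero_add, sum_eq_single (Sum.inl i)]
      · simp
      · intro b _ hb
        rw [Pi.single_eq_of_ne hb, map_zero, zero_mul]
      · exact fun h => absurd (mem_univ _) h
    · refine ⟨1, 0, ?_⟩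
      rw [Set.mem_singleton_iff.1 hu]
      simp
  | zero => exact ⟨0, 0, by simp⟩
  | add u v _ _ hu hv =>
    obtain ⟨a, b, h⟩ := hu
    obtain ⟨a', b', h'⟩ := hv
    refine ⟨a + a', b + b', ?_⟩
    rw [← h, ← h']
    simp only [map_add, Pi.add_apply, add_mul, sum_add_distrib]
    ring
  | smul c u _ hu =>
    obtain ⟨a, b, h⟩ := hu
    refine ⟨c * a, fun i => c * b i, ?_⟩
    rw [← h, Algebra.smul_def, mul_add, mul_sum]
    simp only [map_mul, mul_assoc]

/-- the quadratic expressions are values of polynomials of small weighted degree -/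
theorem Enc.q {x : σ → F} {l : List F} {t : List (ℕ × ℕ)} (e : Enc x l t) (ht : 1 ≤ W t) {u : F}
    (hu : u ∈ Q x {b | b ∈ l}) :
    ∃ P : MvPolynomial (σ ⊕ e.κ) ℂ, WD (Sum.elim (fun _ => 1) e.wy) (W t + W t) P ∧
      aeval (Sum.elim x e.y) P = u := by
  classical
  have hwt : ∀ i : σ ⊕ e.κ, (Sum.elim (fun _ => 1) e.wy : σ ⊕ e.κ → ℕ) i ≤ W t := by
    rintro (i | k)
    · exact ht
    · exact (e.hw k).2.2
  unfold Q at hu
  induction hu using Submodule.span_induction with
  | mem u hu =>
    obtain ⟨v, w, hv, hw, rfl⟩ := hu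
    obtain ⟨a, b, h⟩ := e.av hv
    obtain ⟨a', b', h'⟩ := e.av hw
    refine ⟨aff a b * aff a' b', (wd_aff hwt a b).mul (wd_aff hwt a' b'), ?_⟩
    rw [map_mul, h, h']
  | zero => exact ⟨0, wd_zero _, map_zero _⟩
  | add u v _ _ hu hv =>
    obtain ⟨P, h1, h2⟩ := hu
    obtain ⟨P', h1', h2'⟩ := hv
    exact ⟨P + P', wd_add h1 h1', by rw [map_add, h2, h2']⟩
  | smul c u _ hu =>
    obtain ⟨P, h1, h2⟩ := hu
    refine ⟨C c * P, ?_, ?_⟩
    · have := (wd_C (w := (Sum.elim (fun _ => 1) e.wy : σ ⊕ e.κ → ℕ)) 0 c).mul h1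
      rwa [zero_add] at this
    · rw [map_mul, aeval_C, h2, Algebra.smul_def]

theorem pderiv_rename_notin {ι ι' : Type} [DecidableEq ι'] (e : ι → ι') (v : ι')
    (hv : ∀ i, e i ≠ v) (p : MvPolynomial ι ℂ) : pderiv v (rename e p) = 0 := by
  classical
  apply pderiv_eq_zero_of_notMem_vars
  intro h
  have h1 := vars_rename e p h
  rw [mem_image] at h1
  obtain ⟨a, _, ha⟩ := h1
  exact hv a ha

/-- the equations for nested systems -/
theorem exists_enc {x : σ → F} {l : List F} {s : List ℕ} (hl : Sys x l s) :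
    ∀ t : List (ℕ × ℕ), (∀ a ∈ t, 1 ≤ a.2) → t.map Prod.fst = s → Nonempty (Enc x l t) := by
  classical
  induction hl with
  | nil =>
    intro t _ hts
    have ht : t = [] := by simpa using hts
    subst ht
    refine ⟨⟨Empty, inferInstance, inferInstance, Empty.elim, Empty.elim, Empty.elim,
      Empty.elim, fun k => k.elim, fun k => k.elim, fun k => k.elim, ?_, ?_, ?_⟩⟩
    · rw [Matrix.det_isEmpty]
      exact one_ne_zero
    · intro u hu
      exact absurd hu (by simp)
    · intro g
      simp [PR]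
  | solve l s n B β y _ hB hβ hdet hy ih =>
    intro t ht hts
    obtain ⟨a, t', rfl⟩ : ∃ a t', t = a :: t' := by
      cases t with
      | nil => simp at hts
      | cons a t' => exact ⟨a, t', rfl⟩
    rw [List.map_cons, List.cons.injEq] at hts
    obtain ⟨rfl, hts⟩ := hts
    have ht' : ∀ b ∈ t', 1 ≤ b.2 := fun b hb => ht b (List.mem_cons_of_mem _ hb)
    obtain ⟨e⟩ := ih t' ht' hts
    have hW1 : 1 ≤ W t' := W_pos ht'
    have hW2 : W t' ≤ W (a :: t') := by
      change W t' ≤ a.2 * W t'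
      exact Nat.le_mul_of_pos_left _ (ht a List.mem_cons_self)
    choose cB bB hcB using fun i j => e.av (hB i j)
    choose P hP1 hP2 using fun i => e.q hW1 (hβ i)
    let em : σ ⊕ e.κ → σ ⊕ (e.κ ⊕ Fin a.1) := Sum.map id Sum.inl
    have hem : Function.Injective em := Sum.map_injective.2 ⟨Function.injective_id,
      Sum.inl_injective⟩
    let wy' : e.κ ⊕ Fin a.1 → ℕ := Sum.elim e.wy fun _ => W (a :: t')
    let wp' : e.κ ⊕ Fin a.1 → ℕ := Sum.elim e.wp fun _ => W t'
    let y' : e.κ ⊕ Fin a.1 → F := Sum.elim e.y y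
    let w : σ ⊕ e.κ → ℕ := Sum.elim (fun _ => 1) e.wy
    let w' : σ ⊕ (e.κ ⊕ Fin a.1) → ℕ := Sum.elim (fun _ => 1) wy'
    have hwt : ∀ i, w i ≤ W t' := by
      rintro (i | k)
      · exact hW1
      · exact (e.hw k).2.2
    have hww : ∀ i, w' (em i) = w i := by
      rintro (i | k) <;> rfl
    let q' : σ ⊕ (e.κ ⊕ Fin a.1) → F := Sum.elim x y'
    have hq : ∀ p : MvPolynomial (σ ⊕ e.κ) ℂ, aeval q' (rename em p) =
        aeval (Sum.elim x e.y) p := by
      intro p
      rw [aeval_rename]
      congr 2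
      funext i
      rcases i with i | k <;> rfl
    let E' : e.κ ⊕ Fin a.1 → MvPolynomial (σ ⊕ (e.κ ⊕ Fin a.1)) ℂ :=
      Sum.elim (fun j => rename em (e.E j)) fun i =>
        ∑ j, rename em (aff (cB i j) (bB i j)) * X (Sum.inr (Sum.inr j)) - rename em (P i)
    -- the derivatives
    have d1 : ∀ j k, aeval q' (pderiv (Sum.inr (Sum.inl k)) (E' (Sum.inl j))) =
        aeval (Sum.elim x e.y) (pderiv (Sum.inr k) (e.E j)) := by
      intro j k
      change aeval q' (pderiv (em (Sum.inr k)) (rename em (e.E j))) = _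
      rw [pderiv_rename hem, hq]
    have d2 : ∀ j k, aeval q' (pderiv (Sum.inr (Sum.inr k)) (E' (Sum.inl j))) = 0 := by
      intro j k
      change aeval q' (pderiv (Sum.inr (Sum.inr k)) (rename em (e.E j))) = _
      rw [pderiv_rename_notin em (Sum.inr (Sum.inr k)) (by rintro (i | i) <;> simp [em]),
        map_zero]
    have d3 : ∀ i k, aeval q' (pderiv (Sum.inr (Sum.inr k)) (E' (Sum.inr i))) = B i k := by
      intro i k
      change aeval q' (pderiv (Sum.inr (Sum.inr k)) (∑ j, rename em (aff (cB i j) (bB i j)) *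
        X (Sum.inr (Sum.inr j)) - rename em (P i))) = _
      rw [map_sub, pderiv_rename_notin em (Sum.inr (Sum.inr k)) (by rintro (i | i) <;> simp [em]),
        sub_zero, map_sum, map_sum, sum_eq_single k]
      · rw [Derivation.leibniz, pderiv_X_self,
          pderiv_rename_notin em (Sum.inr (Sum.inr k)) (by rintro (i | i) <;> simp [em]),
          smul_zero, add_zero, smul_eq_mul, mul_one, hq, hcB]
      · intro j _ hj
        rw [Derivation.leibniz, pderiv_X_of_ne (by simpa using hj),
          pderiv_rename_notin em (Sum.inr (Sum.inr k)) (by rintro (i | i) <;> simp [em]),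
          smul_zero, smul_zero, add_zero, map_zero]
      · exact fun h => absurd (mem_univ _) h
    refine ⟨⟨e.κ ⊕ Fin a.1, inferInstance, inferInstance, wy', wp', y', E', ?_, ?_, ?_, ?_, ?_,
      ?_⟩⟩
    · rintro (k | k)
      · exact ⟨(e.hw k).1, (e.hw k).2.1, (e.hw k).2.2.trans hW2⟩
      · exact ⟨hW1, hW2, le_rfl⟩
    · rintro (j | i)
      · exact wd_rename em hww (e.hE j)
      · change WD w' (W (a :: t') + W t') (∑ j, rename em (aff (cB i j) (bB i j)) *
          X (Sum.inr (Sum.inr j)) - rename em (P i))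
        refine wd_sub (wd_sum fun j _ => ?_) ?_
        · have h1 : WD w' (W t') (rename em (aff (cB i j) (bB i j))) :=
            wd_rename em hww (wd_aff hwt _ _)
          have h2 : WD w' (W (a :: t')) (X (Sum.inr (Sum.inr j)) :
            MvPolynomial (σ ⊕ (e.κ ⊕ Fin a.1)) ℂ) := wd_X _ le_rfl
          exact (h1.mul h2).mono (by omega)
        · exact (wd_rename em hww (hP1 i)).mono (by omega)
    · rintro (j | i)
      · exact (hq _).trans (e.hz j)
      · change aeval q' (∑ j, rename em (aff (cB i j) (bB i j)) *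
          X (Sum.inr (Sum.inr j)) - rename em (P i)) = 0
        rw [map_sub, hq, hP2, map_sum, ← hy i, sub_eq_zero]
        refine sum_congr rfl fun j _ => ?_
        rw [map_mul, hq, hcB, aeval_X]
        rfl
    · have h1 : (Matrix.of fun j k => aeval q' (pderiv (Sum.inr k) (E' j))) =
          Matrix.fromBlocks
            (Matrix.of fun j k => aeval (Sum.elim x e.y) (pderiv (Sum.inr k) (e.E j))) 0
            (Matrix.of fun i k => aeval q' (pderiv (Sum.inr (Sum.inl k)) (E' (Sum.inr i)))) B := by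
        ext j k
        rcases j with j | j <;> rcases k with k | k
        · exact d1 j k
        · exact d2 j k
        · rfl
        · exact d3 j k
      change (Matrix.of fun j k => aeval q' (pderiv (Sum.inr k) (E' j))).det ≠ 0
      rw [h1, Matrix.det_fromBlocks_zero₁₂]
      exact mul_ne_zero e.hJ hdet
    · intro u hu
      rcases List.mem_append.1 hu with hu | hu
      · obtain ⟨i, rfl⟩ := (List.mem_ofFn' _ _).1 hu
        exact ⟨Sum.inr i, rfl⟩
      · obtain ⟨k, hk⟩ := e.hl u hu
        exact ⟨Sum.inl k, hk⟩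
    · intro g
      rw [Fintype.prod_sum_type]
      change (∏ k, g (e.wy k) (e.wp k)) * ∏ _k : Fin a.1, g (W (a :: t')) (W t') = _
      rw [e.hg g, prod_const, card_univ, Fintype.card_fin, mul_comm]
      rfl

end enc

end Pool.Agent.L5helper88.NS
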