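import Pool.Agent.L5helper88.NS.Weights
import Pool.Agent.L5helper88.CP.NumLog

/-!
# The numerical part of the bound for nested systems
-/

set_option autoImplicit false

namespace Pool.Agent.L5helper88.NS

open Pool.Agent.L5helper88.CP

/-- the sum of the logarithms of the parameters -/
noncomputable def LA (t : List (ℕ × ℕ)) : ℝ := (t.map fun a => Real.log a.2).sum

/-- the weighted sum of the logarithms of `1 + 1 / ρ` -/
noncomputable def LG (t : List (ℕ × ℕ)) : ℝ :=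
  (t.map fun a => (a.1 : ℝ) * Real.log (1 + 1 / (a.2 : ℝ))).sum

theorem log_W {t : List (ℕ × ℕ)} (ht : ∀ a ∈ t, 1 ≤ a.2) : Real.log (W t) = LA t := by
  induction t with
  | nil => simp [W, LA]
  | cons a t ih =>
    have h1 := ih fun b hb => ht b (List.mem_cons_of_mem _ hb)
    have h2 : 1 ≤ W t := W_pos fun b hb => ht b (List.mem_cons_of_mem _ hb)
    have h3 : 1 ≤ a.2 := ht a List.mem_cons_self
    have h4 : LA (a :: t) = Real.log a.2 + LA t := by simp [LA]
    have h5 : W (a :: t) = a.2 * W t := rfl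
    rw [h4, h5, Nat.cast_mul, Real.log_mul (by positivity) (by positivity), h1]

theorem log_PR {t : List (ℕ × ℕ)} (ht : ∀ a ∈ t, 1 ≤ a.2) :
    0 < PR (fun a b => (1 + (b : ℝ) / a) ^ 2) t ∧
      Real.log (PR (fun a b => (1 + (b : ℝ) / a) ^ 2) t) = 2 * LG t := by
  induction t with
  | nil => simp [PR, LG]
  | cons a t ih =>
    obtain ⟨h0, h1⟩ := ih fun b hb => ht b (List.mem_cons_of_mem _ hb)
    have h2 : 1 ≤ W t := W_pos fun b hb => ht b (List.mem_cons_of_mem _ hb)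
    have h3 : 1 ≤ a.2 := ht a List.mem_cons_self
    have h3' : (0 : ℝ) < a.2 := by exact_mod_cast h3
    have h2' : (0 : ℝ) < W t := by exact_mod_cast h2
    have h4 : LG (a :: t) = (a.1 : ℝ) * Real.log (1 + 1 / (a.2 : ℝ)) + LG t := by simp [LG]
    have h5 : PR (fun a b => (1 + (b : ℝ) / a) ^ 2) (a :: t) =
        ((1 + (W t : ℝ) / ((a.2 * W t : ℕ) : ℝ)) ^ 2) ^ a.1 *
          PR (fun a b => (1 + (b : ℝ) / a) ^ 2) t := rfl
    have h6 : (W t : ℝ) / ((a.2 * W t : ℕ) : ℝ) = 1 / (a.2 : ℝ) := by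
      rw [Nat.cast_mul]
      field_simp
    rw [h5, h6, h4]
    refine ⟨by positivity, ?_⟩
    rw [Real.log_mul (by positivity) h0.ne', h1, Real.log_pow, Real.log_pow]
    push_cast
    ring

theorem log_RHS {t : List (ℕ × ℕ)} (ht : ∀ a ∈ t, 1 ≤ a.2) (M C : ℕ) :
    0 < (t.map fun a => (a.2 : ℝ) ^ M * (1 + 1 / (a.2 : ℝ)) ^ (C * a.1)).prod ∧
      Real.log (t.map fun a => (a.2 : ℝ) ^ M * (1 + 1 / (a.2 : ℝ)) ^ (C * a.1)).prod =
        M * LA t + C * LG t := by
  induction t with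
  | nil => simp [LA, LG]
  | cons a t ih =>
    obtain ⟨h0, h1⟩ := ih fun b hb => ht b (List.mem_cons_of_mem _ hb)
    have h3 : 1 ≤ a.2 := ht a List.mem_cons_self
    have h3' : (0 : ℝ) < a.2 := by exact_mod_cast h3
    have h4 : LG (a :: t) = (a.1 : ℝ) * Real.log (1 + 1 / (a.2 : ℝ)) + LG t := by simp [LG]
    have h5 : LA (a :: t) = Real.log a.2 + LA t := by simp [LA]
    rw [List.map_cons, List.prod_cons, h4, h5]
    refine ⟨by positivity, ?_⟩
    rw [Real.log_mul (by positivity) h0.ne', h1, Real.log_mul (by positivity) (by positivity),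
      Real.log_pow, Real.log_pow]
    push_cast
    ring

theorem LA_nonneg {t : List (ℕ × ℕ)} (ht : ∀ a ∈ t, 1 ≤ a.2) : 0 ≤ LA t := by
  refine List.sum_nonneg ?_
  intro y hy
  obtain ⟨a, ha, rfl⟩ := List.mem_map.1 hy
  exact Real.log_nonneg (by exact_mod_cast ht a ha)

theorem LG_nonneg (t : List (ℕ × ℕ)) : 0 ≤ LG t := by
  refine List.sum_nonneg ?_
  intro y hy
  obtain ⟨a, ha, rfl⟩ := List.mem_map.1 hy
  refine mul_nonneg (Nat.cast_nonneg _) (Real.log_nonneg ?_)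
  have : (0 : ℝ) ≤ 1 / (a.2 : ℝ) := by positivity
  linarith

theorem nested_num (m : ℕ) (hm : 1 ≤ m) (t : List (ℕ × ℕ)) (ht : ∀ a ∈ t, 1 ≤ a.2)
    (h : ∀ L : ℕ, 364 * 2 ^ (L + 1) ≤ m →
      ((((2 ^ L).factorial) ^ 2) ^ (2 * 2 ^ L) : ℝ) ≤
        (3 * (W t : ℝ)) ^ (2 * 2 ^ L * (2 * 2 ^ L)) *
          PR (fun a b => (1 + (b : ℝ) / a) ^ 2) t) :
    ((m : ℝ) / 2 ^ 14) ^ (m ^ 2) ≤
      (t.map fun a => (a.2 : ℝ) ^ (m ^ 2) * (1 + 1 / (a.2 : ℝ)) ^ (2 ^ 21 * a.1)).prod := by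
  obtain ⟨r0, r1⟩ := log_RHS ht (m ^ 2) (2 ^ 21)
  have hA := LA_nonneg ht
  have hG := LG_nonneg t
  have hm1 : (1 : ℝ) ≤ m := by exact_mod_cast hm
  have hm0 : (0 : ℝ) < m := by linarith
  rw [← Real.log_le_log_iff (by positivity) r0, r1, Real.log_pow,
    Real.log_div hm0.ne' (by norm_num), Real.log_pow]
  push_cast
  have hlog2 : 0 < Real.log 2 := Real.log_pos (by norm_num)
  by_cases hY : Real.log m - 14 * Real.log 2 - LA t ≤ 0
  · have h1 : (m : ℝ) ^ 2 * (Real.log m - 14 * Real.log 2 - LA t) ≤ 0 :=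
      mul_nonpos_of_nonneg_of_nonpos (by positivity) hY
    nlinarith [h1, hG]
  rw [not_le] at hY
  have hm2 : 2 * 364 ≤ m := by
    by_contra hlt
    rw [not_le] at hlt
    have h1 : (m : ℝ) ≤ 2 ^ 14 := by
      have : m ≤ 2 ^ 14 := by omega
      exact_mod_cast this
    have h2 := Real.log_le_log hm0 h1
    rw [Real.log_pow] at h2
    push_cast at h2
    linarith
  obtain ⟨L, h1, h2⟩ := exists_level 364 m (by norm_num) hm2
  have h3 := h L h1
  have h4 : (m : ℝ) < 1456 * (2 ^ L : ℕ) := by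
    have : m < 1456 * 2 ^ L := by
      rw [pow_add] at h2
      omega
    exact_mod_cast this
  obtain ⟨p0, p1⟩ := log_PR ht
  have hW0 : 1 ≤ W t := W_pos ht
  have hW : (0 : ℝ) < W t := by exact_mod_cast hW0
  have hf0 : (0 : ℝ) < ((2 ^ L).factorial : ℝ) := by exact_mod_cast (2 ^ L).factorial_pos
  have h5 := Real.log_le_log (by positivity) h3
  rw [Real.log_mul (by positivity) p0.ne', p1, Real.log_pow, Real.log_pow, Real.log_pow,
    Real.log_mul (by norm_num) hW.ne', log_W ht] at h5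
  have h6 := log_factorial_ge (2 ^ L)
  push_cast at h4 h5 h6
  set q : ℝ := (2 : ℝ) ^ L with hq
  have hq0 : 0 < q := by positivity
  have hq1 : (m : ℝ) / 1456 ≤ q := by
    rw [div_le_iff₀ (by norm_num)]
    linarith
  have h7 : Real.log m - Real.log 1456 ≤ Real.log q := by
    rw [← Real.log_div hm0.ne' (by norm_num)]
    exact Real.log_le_log (by positivity) hq1
  have h8 : Real.log 1456 + Real.log 3 ≤ 12.1 * Real.log 2 := by
    rw [← Real.log_mul (by norm_num) (by norm_num)]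
    have h9 : Real.log ((1456 * 3 : ℝ) ^ 10) ≤ Real.log ((2 : ℝ) ^ 121) :=
      Real.log_le_log (by norm_num) (by norm_num)
    rw [Real.log_pow, Real.log_pow] at h9
    norm_num at h9 ⊢
    linarith
  have h9 : 1 ≤ 1.45 * Real.log 2 := by
    have := Real.log_two_gt_d9
    linarith
  -- the main inequality
  have h10 : 4 * q ^ 2 * (Real.log q - 1 - Real.log 3 - LA t) ≤ 2 * LG t := by
    have h11 := mul_le_mul_of_nonneg_left h6 (by positivity : (0 : ℝ) ≤ 4 * q)
    nlinarith [h11, h5]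
  have h12 : Real.log m - 14 * Real.log 2 - LA t ≤ Real.log q - 1 - Real.log 3 - LA t := by
    linarith
  have h13 : (m : ℝ) ^ 2 ≤ (1456 * q) ^ 2 := pow_le_pow_left₀ hm0.le h4.le 2
  have h14 : (m : ℝ) ^ 2 * (Real.log m - 14 * Real.log 2 - LA t) ≤
      (1456 * q) ^ 2 * (Real.log q - 1 - Real.log 3 - LA t) :=
    mul_le_mul h13 h12 hY.le (by positivity)
  have h15 : (1456 * q) ^ 2 * (Real.log q - 1 - Real.log 3 - LA t) =
      529984 * (4 * q ^ 2 * (Real.log q - 1 - Real.log 3 - LA t)) := by ring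
  rw [h15] at h14
  nlinarith [h14, h10, hG]

theorem nested_log (m : ℕ) (hm : 1 ≤ m) (s : List ℕ)
    (h : ∀ t : List (ℕ × ℕ), (∀ a ∈ t, 1 ≤ a.2) → t.map Prod.fst = s →
      ((m : ℝ) / 2 ^ 14) ^ (m ^ 2) ≤
        (t.map fun a => (a.2 : ℝ) ^ (m ^ 2) * (1 + 1 / (a.2 : ℝ)) ^ (2 ^ 21 * a.1)).prod) :
    (m : ℝ) ^ 2 * (Real.logb 2 m - 14) / 2 ^ 21 ≤ (s.sum : ℝ) := by
  have ht : ∀ a ∈ s.map (fun n => ((n, 1) : ℕ × ℕ)), 1 ≤ a.2 := by
    intro a ha
    obtain ⟨n, _, rfl⟩ := List.mem_map.1 ha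
    exact le_rfl
  have h1 := h (s.map fun n => (n, 1)) ht (by rw [List.map_map]; simp [Function.comp_def])
  have hm0 : (0 : ℝ) < m := by exact_mod_cast hm
  have h2 := Real.log_le_log (by positivity) h1
  rw [(log_RHS ht (m ^ 2) (2 ^ 21)).2, Real.log_pow, Real.log_div hm0.ne' (by norm_num),
    Real.log_pow] at h2
  have h3 : LA (s.map fun n => ((n, 1) : ℕ × ℕ)) = 0 := by
    unfold LA
    rw [List.map_map]
    simp [Function.comp_def]
  have h4 : LG (s.map fun n => ((n, 1) : ℕ × ℕ)) = (s.sum : ℝ) * Real.log 2 := by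
    unfold LG
    rw [List.map_map]
    induction s with
    | nil => simp
    | cons n s ih =>
      simp only [List.map_cons, List.sum_cons, Function.comp_apply, Nat.cast_add, add_mul]
      congr 1
      · norm_num
      · clear h ht h1 h2 h3 ih
        induction s with
        | nil => simp
        | cons n s ih =>
          simp only [List.map_cons, List.sum_cons, Function.comp_apply, Nat.cast_add, add_mul]
          rw [ih]
          norm_num
  rw [h3, h4] at h2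
  simp only [Nat.cast_pow, Nat.cast_ofNat] at h2
  have hlog2 : 0 < Real.log 2 := Real.log_pos (by norm_num)
  have h5 : Real.logb 2 m = Real.log m / Real.log 2 := rfl
  rw [h5, div_le_iff₀ (by norm_num)]
  have h6 : (m : ℝ) ^ 2 * (Real.log m / Real.log 2 - 14) =
      (m : ℝ) ^ 2 * (Real.log m - 14 * Real.log 2) / Real.log 2 := by
    field_simp
  rw [h6, div_le_iff₀ hlog2]
  linarith

/-- the inequality of the means, in logarithmic form -/
theorem log_mean (s : List ℕ) (hs : s ≠ []) (x : ℕ → ℝ) (hx : ∀ n, 0 ≤ x n) :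
    (s.map fun n => Real.log (x n + 1)).sum ≤
      s.length * Real.log (1 + (s.map x).sum / s.length) := by
  have hr : (0 : ℝ) < s.length := by
    exact_mod_cast List.length_pos_of_ne_nil hs
  have hX : 0 ≤ (s.map x).sum := by
    refine List.sum_nonneg ?_
    intro y hy
    obtain ⟨a, _, rfl⟩ := List.mem_map.1 hy
    exact hx a
  set μ : ℝ := 1 + (s.map x).sum / s.length with hμ
  have hμ0 : 0 < μ := by positivity
  have h1 : ∀ n, Real.log (x n + 1) ≤ Real.log μ + ((x n + 1) / μ - 1) := by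
    intro n
    have h2 : 0 < x n + 1 := by have := hx n; linarith
    have h3 := Real.log_le_sub_one_of_pos (div_pos h2 hμ0)
    rw [Real.log_div h2.ne' hμ0.ne'] at h3
    linarith
  have h2 : ∀ s' : List ℕ, (s'.map fun n => Real.log (x n + 1)).sum ≤
      s'.length * Real.log μ + (((s'.map x).sum + s'.length) / μ - s'.length) := by
    intro s'
    induction s' with
    | nil => simp
    | cons n s' ih =>
      simp only [List.map_cons, List.sum_cons, List.length_cons]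
      push_cast
      have e1 := h1 n
      have e2 : (x n + (s'.map x).sum + (s'.length + 1 : ℝ)) / μ =
          (x n + 1) / μ + ((s'.map x).sum + s'.length) / μ := by ring
      rw [e2]
      linarith
  refine (h2 s).trans ?_
  have h3 : ((s.map x).sum + s.length) / μ = s.length := by
    rw [div_eq_iff hμ0.ne', hμ]
    field_simp
    ring
  rw [h3]
  linarith

theorem nested_rounds (m : ℕ) (hm : 1 ≤ m) (s : List ℕ) (hs : s ≠ [])
    (h : ∀ t : List (ℕ × ℕ), (∀ a ∈ t, 1 ≤ a.2) → t.map Prod.fst = s →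
      ((m : ℝ) / 2 ^ 14) ^ (m ^ 2) ≤
        (t.map fun a => (a.2 : ℝ) ^ (m ^ 2) * (1 + 1 / (a.2 : ℝ)) ^ (2 ^ 21 * a.1)).prod) :
    (s.length : ℝ) * (m : ℝ) ^ 2 *
      (((m : ℝ) / 2 ^ 14) ^ (1 / (s.length : ℝ)) / Real.exp 1 - 1) / 2 ^ 21 ≤ (s.sum : ℝ) := by
  have hm0 : (0 : ℝ) < m := by exact_mod_cast hm
  have hm2 : (0 : ℝ) < (m : ℝ) ^ 2 := by positivity
  have hr : (0 : ℝ) < s.length := by
    exact_mod_cast List.length_pos_of_ne_nil hs
  set x : ℕ → ℝ := fun n => 2 ^ 21 * n / (m : ℝ) ^ 2 with hx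
  have hx0 : ∀ n, 0 ≤ x n := fun n => by positivity
  have ht : ∀ a ∈ s.map (fun n => ((n, ⌊x n⌋₊ + 1) : ℕ × ℕ)), 1 ≤ a.2 := by
    intro a ha
    obtain ⟨n, _, rfl⟩ := List.mem_map.1 ha
    exact Nat.le_add_left 1 _
  have h1 := h (s.map fun n => (n, ⌊x n⌋₊ + 1)) ht
    (by rw [List.map_map]; simp [Function.comp_def])
  have h2 := Real.log_le_log (by positivity) h1
  rw [(log_RHS ht (m ^ 2) (2 ^ 21)).2, Real.log_pow] at h2
  simp only [Nat.cast_pow, Nat.cast_ofNat] at h2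
  -- each term
  have h3 : ∀ n : ℕ, (m : ℝ) ^ 2 * Real.log ((⌊x n⌋₊ : ℝ) + 1) +
      2 ^ 21 * ((n : ℝ) * Real.log (1 + 1 / ((⌊x n⌋₊ : ℝ) + 1))) ≤
        (m : ℝ) ^ 2 * (1 + Real.log (x n + 1)) := by
    intro n
    have e1 : (⌊x n⌋₊ : ℝ) ≤ x n := Nat.floor_le (hx0 n)
    have e2 : x n < (⌊x n⌋₊ : ℝ) + 1 := Nat.lt_floor_add_one _
    have e0 : (0 : ℝ) < (⌊x n⌋₊ : ℝ) + 1 := by positivity
    have e3 : Real.log ((⌊x n⌋₊ : ℝ) + 1) ≤ Real.log (x n + 1) :=
      Real.log_le_log e0 (by linarith)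
    have e4 : Real.log (1 + 1 / ((⌊x n⌋₊ : ℝ) + 1)) ≤ 1 / ((⌊x n⌋₊ : ℝ) + 1) := by
      have := Real.log_le_sub_one_of_pos (x := 1 + 1 / ((⌊x n⌋₊ : ℝ) + 1)) (by positivity)
      linarith
    have e5 : (2 : ℝ) ^ 21 * n = x n * (m : ℝ) ^ 2 := by
      rw [hx]
      field_simp
    have e6 : 2 ^ 21 * ((n : ℝ) * Real.log (1 + 1 / ((⌊x n⌋₊ : ℝ) + 1))) ≤ (m : ℝ) ^ 2 := by
      calc 2 ^ 21 * ((n : ℝ) * Real.log (1 + 1 / ((⌊x n⌋₊ : ℝ) + 1)))
          = (2 ^ 21 * n) * Real.log (1 + 1 / ((⌊x n⌋₊ : ℝ) + 1)) := by ring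
        _ ≤ (2 ^ 21 * n) * (1 / ((⌊x n⌋₊ : ℝ) + 1)) :=
            mul_le_mul_of_nonneg_left e4 (by positivity)
        _ = (m : ℝ) ^ 2 * (x n / ((⌊x n⌋₊ : ℝ) + 1)) := by rw [e5]; ring
        _ ≤ (m : ℝ) ^ 2 * 1 := by
            refine mul_le_mul_of_nonneg_left ?_ hm2.le
            rw [div_le_one e0]
            exact e2.le
        _ = (m : ℝ) ^ 2 := mul_one _
    have e7 := mul_le_mul_of_nonneg_left e3 hm2.le
    linarith
  have h4 : ∀ s' : List ℕ, (m : ℝ) ^ 2 * LA (s'.map fun n => ((n, ⌊x n⌋₊ + 1) : ℕ × ℕ)) +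
      2 ^ 21 * LG (s'.map fun n => ((n, ⌊x n⌋₊ + 1) : ℕ × ℕ)) ≤
        (m : ℝ) ^ 2 * (s'.length + (s'.map fun n => Real.log (x n + 1)).sum) := by
    intro s'
    unfold LA LG
    induction s' with
    | nil => simp
    | cons n s' ih =>
      simp only [List.map_cons, List.sum_cons, List.length_cons]
      push_cast
      push_cast at ih
      have := h3 n
      linarith
  have h5 := h2.trans (h4 s)
  have h6 : Real.log ((m : ℝ) / 2 ^ 14) ≤
      s.length + (s.map fun n => Real.log (x n + 1)).sum := le_of_mul_le_mul_left h5 hm2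
  have h7 := log_mean s hs x hx0
  have hX : 0 ≤ (s.map x).sum := by
    refine List.sum_nonneg ?_
    intro y hy
    obtain ⟨a, _, rfl⟩ := List.mem_map.1 hy
    exact hx0 a
  set μ : ℝ := 1 + (s.map x).sum / s.length with hμ
  have hμ0 : 0 < μ := by positivity
  have h8 : Real.log ((m : ℝ) / 2 ^ 14) * (1 / (s.length : ℝ)) ≤ 1 + Real.log μ := by
    rw [mul_one_div, div_le_iff₀ hr]
    linarith
  have h9 : ((m : ℝ) / 2 ^ 14) ^ (1 / (s.length : ℝ)) ≤ Real.exp 1 * μ := by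
    rw [Real.rpow_def_of_pos (by positivity)]
    calc Real.exp (Real.log ((m : ℝ) / 2 ^ 14) * (1 / (s.length : ℝ)))
        ≤ Real.exp (1 + Real.log μ) := Real.exp_le_exp.2 h8
      _ = Real.exp 1 * μ := by rw [Real.exp_add, Real.exp_log hμ0]
  have h10 : ((m : ℝ) / 2 ^ 14) ^ (1 / (s.length : ℝ)) / Real.exp 1 - 1 ≤
      (s.map x).sum / s.length := by
    have h11 : ((m : ℝ) / 2 ^ 14) ^ (1 / (s.length : ℝ)) / Real.exp 1 ≤ μ := by
      rw [div_le_iff₀ (Real.exp_pos 1), mul_comm]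
      exact h9
    linarith
  have h12 : (s.map x).sum = 2 ^ 21 * (s.sum : ℝ) / (m : ℝ) ^ 2 := by
    have h13 : ∀ s' : List ℕ, (s'.map x).sum = 2 ^ 21 * (s'.sum : ℝ) / (m : ℝ) ^ 2 := by
      intro s'
      induction s' with
      | nil => simp
      | cons n s' ih =>
        rw [List.map_cons, List.sum_cons, List.sum_cons, ih, hx]
        push_cast
        ring
    exact h13 s
  rw [h12] at h10
  have h14 := mul_le_mul_of_nonneg_left h10 (by positivity : (0 : ℝ) ≤ s.length * (m : ℝ) ^ 2)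
  rw [div_le_iff₀ (by norm_num)]
  refine h14.trans (le_of_eq ?_)
  field_simp

end Pool.Agent.L5helper88.NS
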