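import Pool.Agent.L5helper88.NS.Main
import Pool.Agent.L5helper88.NS.Bdd

/-!
# Nested systems and substitutions
-/

set_option autoImplicit false

open Finset MvPolynomial

namespace Pool.Agent.L5helper88.NS

open Pool.Agent.L5helper88.CP Pool.Agent.L5helper60.LA

variable {τ σ : Type} [Fintype τ] [DecidableEq τ] [Fintype σ] [DecidableEq σ]

omit [Fintype τ] [DecidableEq τ] [DecidableEq σ] in
theorem xs_aff_mem (a : τ → ℂ) (b : τ → σ → ℂ) (j : τ) :
    xs (fun j => aff (a j) (b j)) j ∈ Av (xv ℂ : σ → RF ℂ σ) ∅ := by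
  classical
  change algebraMap (MvPolynomial σ ℂ) (RF ℂ σ) (aff (a j) (b j)) ∈ _
  rw [← aeval_xv, aeval_aff]
  refine Submodule.add_mem _ (av_const _) (Submodule.sum_mem _ fun i _ => ?_)
  rw [← Algebra.smul_def]
  exact Submodule.smul_mem _ _ (av_var i)

/-- **Nested systems give few critical points after generic affine substitutions.** -/
theorem bdd_of_sys {l : List (RF ℂ τ)} {s : List ℕ} (hl : Sys (xv ℂ : τ → RF ℂ τ) l s)
    (t : List (ℕ × ℕ)) (ht : ∀ a ∈ t, 1 ≤ a.2) (hts : t.map Prod.fst = s)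
    (f : MvPolynomial τ ℂ)
    (hf : algebraMap (MvPolynomial τ ℂ) (RF ℂ τ) f ∈ Av (xv ℂ) {b | b ∈ l}) :
    Bdd σ ((3 * (W t : ℝ)) ^ (Fintype.card σ) * PR (fun a b => (1 + (b : ℝ) / a) ^ 2) t) f := by
  obtain ⟨Δ, hΔ, H⟩ := transfer_sys (σ := σ) hl
  refine ⟨Δ, hΔ, fun a b hab c S hS => ?_⟩
  obtain ⟨l', hl', hll⟩ := H _ hab
  obtain ⟨w, hw1, hw2⟩ := av_val hll hf
  have h1 := hw2.unique (Val.poly f)
  rw [h1] at hw1
  exact sys_bound (hl'.change (xs_aff_mem a b)) t ht hts _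
    (av_change (xs_aff_mem a b) _ hw1) c S hS

end Pool.Agent.L5helper88.NS
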