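import Pool.Agent.L5helper88.NS.Field
import Pool.Agent.L5helper88.NS.Abs
import Pool.Agent.L5helper88.NS.Num
import Pool.Agent.L5helper88.NS.SysBdd

/-!
# The bound for nested systems, from the permanents `F_t`
-/

set_option autoImplicit false

open Finset MvPolynomial

namespace Pool.Agent.L5helper88.NS

open L5helper59.DC L5lead.NC L5helper96.NC L5helper96.Cub L5helper59.NC
  Pool.Agent.L5helper60.LA Pool.Agent.L5helper88.Model Pool.Agent.L5helper88.CP

/-- the bound for approximations over `ℂ` -/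
theorem solved_bound (hC3 : PermSizeStmt size3) (m : ℕ) (hm : 1 ≤ m) (s : List ℕ)
    (h : SolvedApproximately (perm ℂ m) s) (t : List (ℕ × ℕ)) (ht : ∀ a ∈ t, 1 ≤ a.2)
    (hts : t.map Prod.fst = s) :
    ((m : ℝ) / 2 ^ 14) ^ (m ^ 2) ≤
      (t.map fun a => (a.2 : ℝ) ^ (m ^ 2) * (1 + 1 / (a.2 : ℝ)) ^ (2 ^ 21 * a.1)).prod := by
  obtain ⟨P, D, h1, h2, h3⟩ := h
  refine nested_num m hm t ht fun L hL => ?_
  refine program_bdd hC3 m L hL P D h2 h3 _ fun k => ?_
  obtain ⟨l, h4, h5⟩ := h1 k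
  have key := bdd_of_sys (σ := Fin (2 ^ (L + 1)) × Fin (2 ^ (L + 1))) h4.sys t ht hts (P k) h5
  have h6 : Fintype.card (Fin (2 ^ (L + 1)) × Fin (2 ^ (L + 1))) =
      2 * 2 ^ L * (2 * 2 ^ L) := by
    rw [Fintype.card_prod, Fintype.card_fin, pow_succ]
    ring
  rw [h6] at key
  exact key

theorem approximately_of_solved {σ : Type} {f : MvPolynomial σ ℂ} {s : List ℕ}
    (h : Solved f s) : SolvedApproximately f s :=
  ⟨fun _ => f, f.totalDegree, fun _ => h, fun _ => le_rfl, fun _ => tendsto_const_nhds⟩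

end Pool.Agent.L5helper88.NS
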