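import Pool.Agent.L5helper88.CP.Chain

/-!
# Independence of the family of products, for an arbitrary set of auxiliary variables
-/

set_option autoImplicit false

open Finset MvPolynomial

namespace Pool.Agent.L5helper88.NS

open Pool.Agent.L5helper88.CP

section indep

variable {σ κ : Type} [Fintype σ] [DecidableEq σ] [Fintype κ] [DecidableEq κ] {F : Type} [Field F]
  [Algebra ℂ F]

/-- independence of the family `b_p ∏ R_i ^ a_i ∏ E_j ^ b_j` -/
theorem indep_family' (q : σ ⊕ κ → F)
    (hx : Function.Injective (aeval (R := ℂ) fun i => q (Sum.inl i) : MvPolynomial σ ℂ → F))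
    (g : σ → MvPolynomial σ ℂ) (R : σ → MvPolynomial (σ ⊕ κ) ℂ)
    (hR : ∀ i, aeval q (R i) = aeval (fun i => q (Sum.inl i)) (g i))
    (E : κ → MvPolynomial (σ ⊕ κ) ℂ) (hE : ∀ j, aeval q (E j) = 0)
    (hsurj : ∀ w : κ → F, ∃ s : κ → F, ∀ j,
      ∑ i, s i * aeval q (pderiv (Sum.inr i) (E j)) = w j)
    (T : Finset (σ → ℂ)) (hT : ∀ p ∈ T, ∀ j, eval p (g j) = 0)
    (hnd : ∀ p ∈ T, ∀ z : σ → ℂ, (∀ j, ∑ i, z i * eval p (pderiv i (g j)) = 0) → z = 0)
    (b : (σ → ℂ) → MvPolynomial σ ℂ)
    (hb : ∀ p, ∀ p' ∈ T, eval p' (b p) = if p' = p then 1 else 0)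
    (S : Finset (σ ⊕ κ → ℕ)) (c : (σ → ℂ) → (σ ⊕ κ → ℕ) → ℂ)
    (hc : ∑ p ∈ T, ∑ a ∈ S, C (c p a) *
      (rename Sum.inl (b p) * ∏ j, (Sum.elim R E j) ^ a j) = 0) :
    ∀ p ∈ T, ∀ a ∈ S, c p a = 0 := by
  classical
  have : Infinite F := Infinite.of_injective (algebraMap ℂ F) (RingHom.injective _)
  set x : σ → F := fun i => q (Sum.inl i) with hxdef
  have key : ∀ r : ℕ, ∀ p ∈ T, ∀ a ∈ S, ∑ j, a (Sum.inr j) = r → c p a = 0 := by
    intro r
    induction r using Nat.strong_induction_on with
    | _ r ih =>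
    -- the value of one term
    set V : (σ → ℂ) → (σ ⊕ κ → ℕ) → F := fun p a =>
      algebraMap ℂ F (c p a) * (aeval x (b p) * ∏ i, (aeval x (g i)) ^ a (Sum.inl i)) with hV
    have hw : ∀ w : κ → F, ∑ p ∈ T, ∑ a ∈ S.filter (fun a => ∑ j, a (Sum.inr j) = r),
        V p a * ∏ j, w j ^ a (Sum.inr j) = 0 := by
      intro w
      obtain ⟨s, hs⟩ := hsurj w
      set z : σ ⊕ κ → F := Sum.elim (fun _ => 0) s with hz
      have hgj : ∀ j, ∃ h : Polynomial F, ln q z (E j) = Polynomial.X * h ∧
          h.coeff 0 = w j := by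
        intro j
        have h0 : (ln q z (E j)).coeff 0 = 0 := by rw [ln_zero]; exact hE j
        obtain ⟨h, hh⟩ := Polynomial.X_dvd_iff.2 h0
        refine ⟨h, hh, ?_⟩
        have h1 := ln_one q z (E j)
        rw [hh, mul_comm, show (1 : ℕ) = 0 + 1 from rfl, Polynomial.coeff_mul_X] at h1
        rw [h1, Fintype.sum_sum_type]
        simp only [hz, Sum.elim_inl, Sum.elim_inr, zero_mul, sum_const_zero, zero_add]
        exact hs j
      choose h hh h0 using hgj
      have h1 := congrArg (fun f => (ln q z f).coeff r) hc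
      simp only [map_sum, map_mul, map_prod, map_pow, map_zero, Polynomial.coeff_zero,
        Polynomial.finsetSum_coeff] at h1
      have h2 : ∀ p ∈ T, ∀ a ∈ S, (ln q z (C (c p a)) *
          (ln q z (rename Sum.inl (b p)) * ∏ j, ln q z (Sum.elim R E j) ^ a j)).coeff r =
          if ∑ j, a (Sum.inr j) = r then V p a * ∏ j, w j ^ a (Sum.inr j) else 0 := by
        intro p hp a ha
        have h3 : ln q z (C (c p a)) = Polynomial.C (algebraMap ℂ F (c p a)) := by
          rw [ln, aeval_C]
          rfl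
        have h4 : ln q z (C (c p a)) *
            (ln q z (rename Sum.inl (b p)) * ∏ j, ln q z (Sum.elim R E j) ^ a j) =
            (Polynomial.C (algebraMap ℂ F (c p a)) * (ln q z (rename Sum.inl (b p)) *
              ((∏ i, ln q z (R i) ^ a (Sum.inl i)) * ∏ j, h j ^ a (Sum.inr j)))) *
              Polynomial.X ^ (∑ j, a (Sum.inr j)) := by
          rw [h3, ← prod_pow_eq_pow_sum, Fintype.prod_sum_type]
          simp only [Sum.elim_inl, Sum.elim_inr, hh, mul_pow, prod_mul_distrib]
          ring
        rw [h4, Polynomial.coeff_mul_X_pow']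
        rcases lt_trichotomy (∑ j, a (Sum.inr j)) r with hlt | heq | hgt
        · rw [if_pos hlt.le, ih _ hlt p hp a ha rfl, if_neg hlt.ne]
          simp
        · rw [if_pos heq.le, heq, Nat.sub_self, Polynomial.coeff_C_mul,
            Polynomial.mul_coeff_zero, Polynomial.mul_coeff_zero, ln_zero, if_pos rfl,
            aeval_rename]
          have h5 : (∏ j, h j ^ a (Sum.inr j)).coeff 0 = ∏ j, w j ^ a (Sum.inr j) := by
            rw [Polynomial.coeff_zero_eq_eval_zero, Polynomial.eval_prod]
            refine prod_congr rfl fun j _ => ?_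
            rw [Polynomial.eval_pow, ← Polynomial.coeff_zero_eq_eval_zero, h0]
          have h6 : (∏ i, ln q z (R i) ^ a (Sum.inl i)).coeff 0 =
              ∏ i, (aeval x (g i)) ^ a (Sum.inl i) := by
            rw [Polynomial.coeff_zero_eq_eval_zero, Polynomial.eval_prod]
            refine prod_congr rfl fun i _ => ?_
            rw [Polynomial.eval_pow, ← Polynomial.coeff_zero_eq_eval_zero, ln_zero, hR]
          rw [h5, h6, hV]
          simp only [Function.comp_def]
          ring
        · rw [if_neg (not_le.2 hgt), if_neg hgt.ne']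
      rw [sum_congr rfl fun p hp => sum_congr rfl fun a ha => h2 p hp a ha] at h1
      simpa only [sum_filter] using h1
    intro p0 hp0 a0 ha0 har
    set S' := S.filter (fun a => ∑ j, a (Sum.inr j) = r) with hS'
    set β : (σ ⊕ κ → ℕ) → (κ →₀ ℕ) := fun a =>
      Finsupp.equivFunOnFinite.symm fun j => a (Sum.inr j) with hβ
    set P : MvPolynomial (κ) F := ∑ p ∈ T, ∑ a ∈ S', monomial (β a) (V p a) with hP
    have hP0 : P = 0 := by
      apply MvPolynomial.funext
      intro w
      rw [hP, map_sum, map_zero, ← hw w]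
      refine sum_congr rfl fun p _ => ?_
      rw [map_sum]
      refine sum_congr rfl fun a _ => ?_
      rw [eval_monomial, Finsupp.prod_fintype _ _ (fun _ => pow_zero _)]
      rfl
    have h1 := congrArg (coeff (β a0)) hP0
    rw [hP, coeff_sum, coeff_zero] at h1
    simp only [coeff_sum, coeff_monomial] at h1
    -- back to polynomials in the inputs
    set β0 : κ → ℕ := fun j => a0 (Sum.inr j) with hβ0
    have hβeq : ∀ a : σ ⊕ κ → ℕ, β a = β a0 ↔ (fun j => a (Sum.inr j)) = β0 := by
      intro a
      simp only [hβ, hβ0]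
      exact Finsupp.equivFunOnFinite.symm.injective.eq_iff
    set S0 := S.filter (fun a => (fun j => a (Sum.inr j)) = β0) with hS0
    have hS0' : ∀ p, ∑ a ∈ S', (if β a = β a0 then V p a else 0) = ∑ a ∈ S0, V p a := by
      intro p
      rw [← sum_filter]
      refine sum_congr ?_ fun _ _ => rfl
      ext a
      simp only [hS', hS0, mem_filter, hβeq]
      constructor
      · rintro ⟨⟨h, _⟩, h'⟩
        exact ⟨h, h'⟩
      · rintro ⟨h, h'⟩
        refine ⟨⟨h, ?_⟩, h'⟩
        rw [← har]
        exact sum_congr rfl fun j _ => congrFun h' j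
    simp only [hS0'] at h1
    have h2 : ∑ p ∈ T, ∑ α ∈ S0.image (fun a => fun i => a (Sum.inl i)),
        C (c p (Sum.elim α β0)) * (b p * ∏ i, g i ^ α i) = 0 := by
      apply hx
      rw [map_zero, map_sum, ← h1]
      refine sum_congr rfl fun p _ => ?_
      rw [sum_image, map_sum]
      · refine sum_congr rfl fun a ha => ?_
        have h3 : (Sum.elim (fun i => a (Sum.inl i)) β0 : σ ⊕ κ → ℕ) = a := by
          funext k
          cases k with
          | inl k => rfl
          | inr k => exact (congrFun (mem_filter.1 ha).2 k).symm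
        rw [h3, hV, map_mul, map_mul, map_prod, aeval_C]
        simp only [map_pow]
      · intro a ha a' ha' h
        funext k
        cases k with
        | inl k => exact congrFun h k
        | inr k =>
          have e1 := congrFun (mem_filter.1 (mem_coe.1 ha)).2 k
          have e2 := congrFun (mem_filter.1 (mem_coe.1 ha')).2 k
          exact e1.trans e2.symm
    have h4 := Pool.Agent.L5helper18.DC.indep rfl g T hT hnd b
      (fun p hp => by rw [hb p p hp, if_pos rfl])
      (fun p _ p' hp' hne => by rw [hb p p' hp', if_neg hne]) _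
      (fun p α => c p (Sum.elim α β0)) h2 p0 hp0 (fun i => a0 (Sum.inl i))
      (mem_image.2 ⟨a0, mem_filter.2 ⟨ha0, rfl⟩, rfl⟩)
    have h5 : (Sum.elim (fun i => a0 (Sum.inl i)) β0 : σ ⊕ κ → ℕ) = a0 := by
      funext k
      cases k <;> rfl
    rwa [h5] at h4
  intro p hp a ha
  exact key _ p hp a ha rfl

end indep

end Pool.Agent.L5helper88.NS
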