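import Pool.Agent.L5helper88.NS.Encode
import Pool.Agent.L5helper88.NS.Indep
import Pool.Agent.L5helper88.CP.Grad
import Pool.Agent.L5helper88.CP.Crit

/-!
# The number of critical points of a polynomial computed by nested systems
-/

set_option autoImplicit false

open Finset MvPolynomial

namespace Pool.Agent.L5helper88.NS

open Pool.Agent.L5helper88.CP Pool.Agent.L5helper60.LA Pool.Agent.L5helper18.DC

section der

variable {σ : Type} [Fintype σ] [DecidableEq σ] {F : Type} [Field F] [Algebra ℂ F] {x : σ → F}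
  {D : σ → F → F}

omit [Fintype σ] in
/-- the chain rule -/
theorem der_aeval (hD : IsDer x D) {ι : Type} [Fintype ι] [DecidableEq ι] (q : ι → F)
    (g : MvPolynomial ι ℂ) (i : σ) :
    D i (aeval q g) = ∑ v, aeval q (pderiv v g) * D i (q v) := by
  induction g using MvPolynomial.induction_on with
  | C a =>
    rw [aeval_C, hD.const]
    simp
  | add f g hf hg =>
    rw [map_add, hD.add, hf, hg, ← sum_add_distrib]
    refine sum_congr rfl fun v _ => ?_
    rw [map_add, map_add, add_mul]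
  | mul_X f v hf =>
    rw [map_mul, aeval_X, hD.mul, hf, sum_mul]
    have h3 : ∀ j, aeval q (pderiv j (f * X v)) * D i (q j) =
        aeval q (pderiv j f) * D i (q j) * q v +
          (if j = v then aeval q f * D i (q j) else 0) := by
      intro j
      rw [Derivation.leibniz, pderiv_X]
      by_cases h : j = v
      · subst h
        simp
        ring
      · rw [if_neg h, Pi.single_eq_of_ne (by exact fun h' => h h'.symm)]
        simp
        ring
    simp only [h3, sum_add_distrib]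
    rw [sum_ite_eq' univ v, if_pos (mem_univ v)]

omit [Algebra ℂ F] in
theorem exists_solution {n : Type} [Fintype n] [DecidableEq n] (M : Matrix n n F)
    (hM : M.det ≠ 0) (w : n → F) : ∃ s : n → F, ∀ j, ∑ i, s i * M j i = w j := by
  refine ⟨M⁻¹.mulVec w, fun j => ?_⟩
  have h1 : M.mulVec (M⁻¹.mulVec w) = w := by
    rw [Matrix.mulVec_mulVec, Matrix.mul_nonsing_inv M (Ne.isUnit hM), Matrix.one_mulVec]
  have h2 := congrFun h1 j
  rw [← h2]
  exact sum_congr rfl fun i _ => mul_comm _ _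

theorem term_le {a b T : ℕ} (ha : 1 ≤ a) (hT : 2 * a + b ≤ T) :
    ((a + b : ℕ) : ℝ) * ((T - a : ℕ) : ℝ) ≤
      (1 + (b : ℝ) / a) ^ 2 * ((a : ℝ) * ((T - a - b : ℕ) : ℝ)) := by
  obtain ⟨r, rfl⟩ : ∃ r, T = 2 * a + b + r := Nat.exists_eq_add_of_le hT
  have e2 : 2 * a + b + r - a - b = a + r := by omega
  rw [e2]
  have e1 : 2 * a + b + r - a = a + b + r := by omega
  rw [e1]
  have ha' : (1 : ℝ) ≤ a := by exact_mod_cast ha
  have ha0 : (0 : ℝ) < a := by linarith
  have hb : (0 : ℝ) ≤ b := Nat.cast_nonneg _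
  have hr : (0 : ℝ) ≤ r := Nat.cast_nonneg _
  push_cast
  have h1 : (1 + (b : ℝ) / a) ^ 2 * ((a : ℝ) * (a + r)) =
      (a + b) * ((a + b) * (a + r)) / a := by
    field_simp
  rw [h1, le_div_iff₀ ha0, mul_assoc]
  refine mul_le_mul_of_nonneg_left ?_ (by positivity)
  nlinarith [mul_nonneg hb hr]

end der

section main

variable {σ : Type} [Fintype σ] [DecidableEq σ]

theorem enc_bound {l : List (RF ℂ σ)} {t : List (ℕ × ℕ)} (hW : 1 ≤ W t)
    (e : Enc (xv ℂ : σ → RF ℂ σ) l t) (f : MvPolynomial σ ℂ)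
    (hf : algebraMap (MvPolynomial σ ℂ) (RF ℂ σ) f ∈ Av (xv ℂ) {b | b ∈ l}) (c : σ → ℂ)
    (S : Finset (σ → ℂ)) (hS : Crit f c S) :
    (S.card : ℝ) ≤ (3 * (W t : ℝ)) ^ (Fintype.card σ) *
      PR (fun a b => (1 + (b : ℝ) / a) ^ 2) t := by
  classical
  set x : σ → RF ℂ σ := xv ℂ with hx
  obtain ⟨a0, b0, hab⟩ := e.av hf
  set q : σ ⊕ e.κ → RF ℂ σ := Sum.elim x e.y with hq
  set J : Matrix e.κ e.κ (RF ℂ σ) := Matrix.of fun j k => aeval q (pderiv (Sum.inr k) (e.E j))
    with hJ
  have hJdet : J.det ≠ 0 := e.hJ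
  -- the adjoint unknowns
  obtain ⟨y', hy'⟩ := exists_solution J.transpose (by rwa [Matrix.det_transpose])
    (fun k => algebraMap ℂ (RF ℂ σ) (b0 (Sum.inr k)))
  have hy'' : ∀ k, ∑ j, y' j * J j k = algebraMap ℂ (RF ℂ σ) (b0 (Sum.inr k)) := fun k => by
    rw [← hy' k]
    rfl
  set T : ℕ := 3 * W t with hT
  let q' : σ ⊕ (e.κ ⊕ e.κ) → RF ℂ σ := Sum.elim x (Sum.elim e.y y')
  let em : σ ⊕ e.κ → σ ⊕ (e.κ ⊕ e.κ) := Sum.map id Sum.inl
  have hem : Function.Injective em := Sum.map_injective.2 ⟨Function.injective_id,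
    Sum.inl_injective⟩
  let w : σ ⊕ e.κ → ℕ := Sum.elim (fun _ => 1) e.wy
  let w' : σ ⊕ (e.κ ⊕ e.κ) → ℕ := Sum.elim (fun _ => 1)
    (Sum.elim e.wy fun k => T - e.wy k - e.wp k)
  let d : σ ⊕ (e.κ ⊕ e.κ) → ℕ := Sum.elim (fun _ => T)
    (Sum.elim (fun k => e.wy k + e.wp k) fun k => T - e.wy k)
  have hw1 : ∀ k, 2 * e.wy k + e.wp k ≤ T := by
    intro k
    have := e.hw k
    omega
  have hw2 : ∀ k, 1 ≤ T - e.wy k - e.wp k := by
    intro k
    have := e.hw k
    omega
  have hq' : ∀ p : MvPolynomial (σ ⊕ e.κ) ℂ, aeval q' (rename em p) = aeval q p := by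
    intro p
    rw [aeval_rename]
    congr 2
    funext i
    rcases i with i | k <;> rfl
  have hww : ∀ i, w' (em i) = w i := by
    rintro (i | k) <;> rfl
  let R : σ → MvPolynomial (σ ⊕ (e.κ ⊕ e.κ)) ℂ := fun i =>
    C (b0 (Sum.inl i)) - ∑ j, X (Sum.inr (Sum.inr j)) *
      rename em (pderiv (Sum.inl i) (e.E j)) - C (c i)
  let E' : e.κ ⊕ e.κ → MvPolynomial (σ ⊕ (e.κ ⊕ e.κ)) ℂ :=
    Sum.elim (fun j => rename em (e.E j)) fun k =>
      ∑ j, X (Sum.inr (Sum.inr j)) * rename em (pderiv (Sum.inr k) (e.E j)) -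
        C (b0 (Sum.inr k))
  -- the gradient
  have hgrad : ∀ i, aeval x (pderiv i f) = algebraMap ℂ (RF ℂ σ) (b0 (Sum.inl i)) -
      ∑ j, y' j * aeval q (pderiv (Sum.inl i) (e.E j)) := by
    intro i
    have hD := isDer_dv (σ := σ)
    have h1 : ∀ v, aeval q (pderiv v (aff a0 b0)) = algebraMap ℂ (RF ℂ σ) (b0 v) := by
      intro v
      rw [pderiv_aff, aeval_C]
    have h2 : ∀ i', dv i (x i') = if i' = i then 1 else 0 := fun i' => hD.var i i'
    have h3 : dv i (algebraMap (MvPolynomial σ ℂ) (RF ℂ σ) f) =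
        algebraMap ℂ (RF ℂ σ) (b0 (Sum.inl i)) +
          ∑ k, algebraMap ℂ (RF ℂ σ) (b0 (Sum.inr k)) * dv i (e.y k) := by
      rw [← hab, der_aeval hD, Fintype.sum_sum_type]
      simp only [h1]
      congr 1
      simp only [hq, Sum.elim_inl, h2, mul_ite, mul_one, mul_zero, sum_ite_eq', mem_univ, if_true]
    have h4 : ∀ j, ∑ k, J j k * dv i (e.y k) = - aeval q (pderiv (Sum.inl i) (e.E j)) := by
      intro j
      have h5 := der_aeval hD q (e.E j) i
      rw [e.hz j, Fintype.sum_sum_type] at h5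
      have h6 : dv i (0 : RF ℂ σ) = 0 := by
        have := hD.const i 0
        rwa [map_zero] at this
      rw [h6] at h5
      simp only [hq, Sum.elim_inl, Sum.elim_inr, h2, mul_ite, mul_one, mul_zero, sum_ite_eq',
        mem_univ, if_true] at h5
      rw [eq_neg_iff_add_eq_zero, add_comm]
      exact h5.symm
    rw [aeval_xv, ← dv_algebraMap, h3]
    simp only [← hy'', sum_mul]
    rw [sum_comm, sub_eq_add_neg, ← sum_neg_distrib]
    congr 1
    refine sum_congr rfl fun j _ => ?_
    simp only [mul_assoc]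
    rw [← mul_sum, h4, mul_neg]
  have hdeg0 : ∀ (j : e.κ) (v : σ ⊕ e.κ), WD w' (T - w v) (X (Sum.inr (Sum.inr j)) *
      rename em (pderiv v (e.E j))) := by
    intro j v
    by_cases hv : w v ≤ e.wy j + e.wp j
    · have h1 : WD w' (T - e.wy j - e.wp j)
          (X (Sum.inr (Sum.inr j)) : MvPolynomial (σ ⊕ (e.κ ⊕ e.κ)) ℂ) := wd_X _ le_rfl
      have h2 := wd_rename em hww (wd_pderiv (e.hE j) v)
      refine (h1.mul h2).mono ?_
      have h3 := e.hw j
      have h4 : (Sum.elim (fun _ => 1) e.wy : σ ⊕ e.κ → ℕ) v = w v := rfl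
      rw [h4]
      omega
    · rw [pderiv_eq_zero_of_wd (e.hE j) v (not_le.1 hv), map_zero, mul_zero]
      exact wd_zero _
  choose b hb using fun p => Pool.Agent.L5helper18.DC.exists_interp S p
  have key := count_bound (K := ℂ) (ι := σ ⊕ (e.κ ⊕ e.κ)) (κ := σ ⊕ (e.κ ⊕ e.κ)) rfl
    w' ?_ d ?_ (Sum.elim R E') ?_ S (fun p => rename Sum.inl (b p)) ?_
  · -- the conclusion
    have k1 : ∏ i, w' i = ∏ k, e.wy k * (T - e.wy k - e.wp k) := by
      rw [Fintype.prod_sum_type, Fintype.prod_sum_type, prod_mul_distrib]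
      simp [w']
    have k2 : ∏ i, d i = T ^ (Fintype.card σ) * ∏ k, (e.wy k + e.wp k) * (T - e.wy k) := by
      rw [Fintype.prod_sum_type, Fintype.prod_sum_type, prod_mul_distrib]
      simp [d]
    rw [k1, k2] at key
    have key2 : (S.card : ℝ) * ∏ k, ((e.wy k : ℝ) * ((T - e.wy k - e.wp k : ℕ) : ℝ)) ≤
        (T : ℝ) ^ (Fintype.card σ) *
          ∏ k, (((e.wy k + e.wp k : ℕ) : ℝ) * ((T - e.wy k : ℕ) : ℝ)) := by
      exact_mod_cast key
    set P : ℝ := ∏ k, ((e.wy k : ℝ) * ((T - e.wy k - e.wp k : ℕ) : ℝ)) with hP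
    have hP0 : 0 < P := by
      refine prod_pos fun k _ => mul_pos ?_ ?_
      · exact_mod_cast (e.hw k).1.trans (e.hw k).2.1
      · exact_mod_cast hw2 k
    have k3 : ∏ k, (((e.wy k + e.wp k : ℕ) : ℝ) * ((T - e.wy k : ℕ) : ℝ)) ≤
        (∏ k, (1 + (e.wp k : ℝ) / e.wy k) ^ 2) * P := by
      rw [hP, ← prod_mul_distrib]
      refine prod_le_prod (fun k _ => by positivity) fun k _ => ?_
      have h1 := e.hw k
      exact term_le (h1.1.trans h1.2.1) (by omega)
    have k4 : ∏ k, (1 + (e.wp k : ℝ) / e.wy k) ^ 2 = PR (fun a b => (1 + (b : ℝ) / a) ^ 2) t :=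
      e.hg fun a b => (1 + (b : ℝ) / a) ^ 2
    rw [k4] at k3
    have k5 : (T : ℝ) = 3 * (W t : ℝ) := by
      rw [hT]
      push_cast
      rfl
    rw [← k5]
    refine le_of_mul_le_mul_right ?_ hP0
    refine key2.trans ?_
    rw [mul_assoc]
    exact mul_le_mul_of_nonneg_left k3 (by positivity)
  · rintro (i | k | k)
    · exact le_rfl
    · exact (e.hw k).1.trans (e.hw k).2.1
    · exact hw2 k
  · rintro (i | k | k)
    · change 1 ≤ T
      omega
    · change 1 ≤ e.wy k + e.wp k
      have := e.hw k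
      omega
    · change 1 ≤ T - e.wy k
      have := hw2 k
      omega
  · rintro (i | k | k)
    · change WD w' T (C (b0 (Sum.inl i)) - ∑ j, X (Sum.inr (Sum.inr j)) *
        rename em (pderiv (Sum.inl i) (e.E j)) - C (c i))
      refine wd_sub (wd_sub (wd_C _ _) (wd_sum fun j _ => ?_)) (wd_C _ _)
      exact (hdeg0 j (Sum.inl i)).mono (by omega)
    · exact wd_rename em hww (e.hE k)
    · change WD w' (T - e.wy k) (∑ j, X (Sum.inr (Sum.inr j)) *
        rename em (pderiv (Sum.inr k) (e.E j)) - C (b0 (Sum.inr k)))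
      exact wd_sub (wd_sum fun j _ => hdeg0 j (Sum.inr k)) (wd_C _ _)
  · intro S' c' hc
    refine indep_family' q' ?_ (fun i => pderiv i f - C (c i)) R ?_ E' ?_ ?_ S ?_ ?_ b hb S' c' hc
    · intro a b h
      change aeval x a = aeval x b at h
      rw [hx, aeval_xv, aeval_xv] at h
      exact IsFractionRing.injective (MvPolynomial σ ℂ) (RF ℂ σ) h
    · intro i
      change aeval q' (C (b0 (Sum.inl i)) - ∑ j, X (Sum.inr (Sum.inr j)) *
        rename em (pderiv (Sum.inl i) (e.E j)) - C (c i)) = aeval x (pderiv i f - C (c i))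
      rw [map_sub, map_sub, map_sub, hgrad, aeval_C, aeval_C, aeval_C, map_sum]
      congr 2
      refine sum_congr rfl fun j _ => ?_
      rw [map_mul, hq', aeval_X]
      rfl
    · rintro (j | k)
      · exact (hq' _).trans (e.hz j)
      · change aeval q' (∑ j, X (Sum.inr (Sum.inr j)) *
          rename em (pderiv (Sum.inr k) (e.E j)) - C (b0 (Sum.inr k))) = 0
        rw [map_sub, map_sum, aeval_C, ← hy'' k, sub_eq_zero]
        refine sum_congr rfl fun j _ => ?_
        rw [map_mul, hq', aeval_X]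
        rfl
    · -- the transversal derivatives
      have d1 : ∀ j k, aeval q' (pderiv (Sum.inr (Sum.inl k)) (E' (Sum.inl j))) = J j k := by
        intro j k
        change aeval q' (pderiv (em (Sum.inr k)) (rename em (e.E j))) = _
        rw [pderiv_rename hem, hq']
        rfl
      have d2 : ∀ j k, aeval q' (pderiv (Sum.inr (Sum.inr k)) (E' (Sum.inl j))) = 0 := by
        intro j k
        change aeval q' (pderiv (Sum.inr (Sum.inr k)) (rename em (e.E j))) = _
        rw [pderiv_rename_notin em (Sum.inr (Sum.inr k)) (by rintro (i | i) <;> simp [em]),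
          map_zero]
      have d3 : ∀ k j, aeval q' (pderiv (Sum.inr (Sum.inr j)) (E' (Sum.inr k))) = J j k := by
        intro k j
        change aeval q' (pderiv (Sum.inr (Sum.inr j)) (∑ j, X (Sum.inr (Sum.inr j)) *
          rename em (pderiv (Sum.inr k) (e.E j)) - C (b0 (Sum.inr k)))) = _
        rw [map_sub, pderiv_C, sub_zero, map_sum, map_sum, sum_eq_single j]
        · rw [Derivation.leibniz, pderiv_X_self,
            pderiv_rename_notin em (Sum.inr (Sum.inr j)) (by rintro (i | i) <;> simp [em]),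
            smul_zero, zero_add, smul_eq_mul, mul_one, hq']
          rfl
        · intro j' _ hj
          rw [Derivation.leibniz, pderiv_X_of_ne (by simpa using hj),
            pderiv_rename_notin em (Sum.inr (Sum.inr j)) (by rintro (i | i) <;> simp [em]),
            smul_zero, smul_zero, add_zero, map_zero]
        · exact fun h => absurd (mem_univ _) h
      have h1 : (Matrix.of fun j k => aeval q' (pderiv (Sum.inr k) (E' j))) =
          Matrix.fromBlocks J 0
            (Matrix.of fun i k => aeval q' (pderiv (Sum.inr (Sum.inl k)) (E' (Sum.inr i))))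
            J.transpose := by
        ext j k
        rcases j with j | j <;> rcases k with k | k
        · exact d1 j k
        · exact d2 j k
        · rfl
        · exact d3 j k
      have h2 : (Matrix.of fun j k => aeval q' (pderiv (Sum.inr k) (E' j))).det ≠ 0 := by
        rw [h1, Matrix.det_fromBlocks_zero₁₂, Matrix.det_transpose]
        exact mul_ne_zero hJdet hJdet
      intro w0
      obtain ⟨s, hs⟩ := exists_solution _ h2 w0
      exact ⟨s, fun j => hs j⟩
    · intro p hp i
      rw [map_sub, hS.1 p hp, eval_C, sub_self]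
    · intro p hp z hz
      apply hS.2 p hp
      intro j
      rw [← hz j]
      refine sum_congr rfl fun i _ => ?_
      rw [map_sub, pderiv_C, sub_zero]

/-- **The number of critical points** of a polynomial computed by nested systems. -/
theorem sys_bound {l : List (RF ℂ σ)} {s : List ℕ} (hl : Sys (xv ℂ : σ → RF ℂ σ) l s)
    (t : List (ℕ × ℕ)) (ht : ∀ a ∈ t, 1 ≤ a.2) (hts : t.map Prod.fst = s)
    (f : MvPolynomial σ ℂ)
    (hf : algebraMap (MvPolynomial σ ℂ) (RF ℂ σ) f ∈ Av (xv ℂ) {b | b ∈ l}) (c : σ → ℂ)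
    (S : Finset (σ → ℂ)) (hS : Crit f c S) :
    (S.card : ℝ) ≤ (3 * (W t : ℝ)) ^ (Fintype.card σ) *
      PR (fun a b => (1 + (b : ℝ) / a) ^ 2) t := by
  obtain ⟨e⟩ := exists_enc hl t ht hts
  exact enc_bound (W_pos ht) e f hf c S hS

end main

end Pool.Agent.L5helper88.NS
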