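import Pool.Agent.L5helper88.CP.Model

/-!
# Computations by nested systems of linear equations
-/

set_option autoImplicit false

open MvPolynomial

namespace Pool.Agent.L5helper88.Model

/-- The combinations, with coefficients in `K`, of products of two elements of `Lin l`. Since
`1` is in `Lin l`, they contain `Lin l`. -/
noncomputable def Quad {K : Type} [Field K] {σ : Type} (l : List (RatFun K σ)) :
    Submodule K (RatFun K σ) :=
  Submodule.span K {a | ∃ u ∈ Lin l, ∃ v ∈ Lin l, a = u * v}

/-- Nested systems of linear equations. The list contains the solutions of all systems, those of
the last system first; the second list contains the sizes of the systems. A system of size `n` has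
`n` equations `∑ j, B i j * y j = β i` in `n` unknowns `y j` and nonzero determinant; its
coefficients `B i j` are linear combinations of the solutions of the earlier systems, the variables
and `1`, its right sides `β i` are quadratic expressions in them. -/
inductive Systems {K : Type} [Field K] {σ : Type} : List (RatFun K σ) → List ℕ → Prop
  | nil : Systems [] []
  | solve (l : List (RatFun K σ)) (s : List ℕ) (n : ℕ) (B : Matrix (Fin n) (Fin n) (RatFun K σ))
      (β y : Fin n → RatFun K σ) : Systems l s → (∀ i j, B i j ∈ Lin l) → (∀ i, β i ∈ Quad l) →
      B.det ≠ 0 → (∀ i, ∑ j, B i j * y j = β i) → Systems (List.ofFn y ++ l) (n :: s)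

/-- The polynomial `f` is computed by nested systems of linear equations of the sizes `s`. -/
def Solved {K : Type} [Field K] {σ : Type} (f : MvPolynomial σ K) (s : List ℕ) : Prop :=
  ∃ l : List (RatFun K σ), Systems l s ∧ toRat f ∈ Lin l

/-- The complex polynomial `f` is approximated by polynomials which are computed by nested systems
of linear equations of the sizes `s`: they have bounded degree and their coefficients converge to
the coefficients of `f`. -/
def SolvedApproximately {σ : Type} (f : MvPolynomial σ ℂ) (s : List ℕ) : Prop :=
  ∃ (P : ℕ → MvPolynomial σ ℂ) (D : ℕ), (∀ k, Solved (P k) s) ∧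
    (∀ k, (P k).totalDegree ≤ D) ∧
    ∀ d, Filter.Tendsto (fun k => coeff d (P k)) Filter.atTop (nhds (coeff d f))

end Pool.Agent.L5helper88.Model
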